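import Pool.Agent.K7.H83.SI.Sp3

/-! # A criterion for the existence of a cyclic vector -/

set_option autoImplicit false

open MeasureTheory Filter Topology
open scoped BigOperators ENNReal NNReal InnerProductSpace ComplexConjugate

namespace Pool.Agent.K7.H83.SI

open Pool.Agent.H5R2.NB ANTI

variable {X : Type} [NormedAddCommGroup X] [InnerProductSpace ℂ X] [CompleteSpace X]

theorem nul_mono {W : UG X} {u : X} {A B : Set ℝ} (h : A ⊆ B) (hu : u ∈ nul W B) : u ∈ nul W A :=
  mem_nul.2 (measure_mono_null h (mem_nul.1 hu))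

theorem nul_of_restrict {W : UG X} {u w : X} {B : Set ℝ} (hB : MeasurableSet B)
    (h : sm W w = (sm W u).restrict B) : w ∈ nul W Bᶜ := by
  rw [mem_nul, h, Measure.restrict_apply hB.compl, Set.compl_inter_self, measure_empty]

theorem nul_of_restrict' {W : UG X} {u w : X} {B : Set ℝ} (hB : MeasurableSet B)
    (h : sm W w = (sm W u).restrict Bᶜ) : w ∈ nul W B := by
  have := nul_of_restrict hB.compl h
  rwa [compl_compl] at this

theorem eq_zero_of_nul {W : UG X} {u : X} {B : Set ℝ} (h1 : u ∈ nul W B) (h2 : u ∈ nul W Bᶜ) :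
    u = 0 := by
  have h := orth_of_nul h1 h2
  exact inner_self_eq_zero.1 h

/-- vectors orthogonal to the absolutely continuous ones are singular -/
theorem sing_of_orth {W : UG X} {u : X}
    (h : ∀ w : X, sm W w ≪ volume → ⟪w, u⟫_ℂ = 0) : sm W u ⟂ₘ volume := by
  obtain ⟨S, hS, h1, h2⟩ := Measure.mutuallySingular_singularPart (sm W u) volume
  obtain ⟨w, -, hw1, hw2⟩ := exists_split W u hS
  have hac : sm W w ≪ volume := by
    rw [hw1]
    conv_lhs => rw [← Measure.singularPart_add_rnDeriv (sm W u) volume]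
    rw [Measure.restrict_add, Measure.restrict_eq_zero.2 h1, zero_add]
    exact Measure.restrict_le_self.absolutelyContinuous.trans
      (withDensity_absolutelyContinuous _ _)
  have h3 := h w hac
  have h4 : ⟪w, u - w⟫_ℂ = 0 := by
    refine orth_of_nul (B := Sᶜ) (nul_of_restrict hS hw1) ?_
    rw [compl_compl]
    exact nul_of_restrict' hS hw2
  have h5 : w = 0 := by
    rw [inner_sub_right, h3, zero_sub, neg_eq_zero] at h4
    exact inner_self_eq_zero.1 h4
  refine ⟨S, hS, ?_, h2⟩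
  rw [h5, sm_zero] at hw1
  exact Measure.restrict_eq_zero.1 hw1.symm

/-- **criterion for a cyclic vector** -/
theorem exists_cyclic {W : UG X} {M : Submodule ℂ X} (hM : IsClosed (M : Set X))
    (hinv : ∀ t, ∀ u ∈ M, W.U t u ∈ M) (hs : ∀ u ∈ M, sm W u ⟂ₘ volume) (e : ℕ → X)
    (A : ℕ → Set ℝ) (hA : ∀ n, MeasurableSet (A n))
    (h1 : ∀ n, ∀ φ, (∀ t, ⟪φ, W.U t (e n)⟫_ℂ = 0) → sm W φ (A n) = 0)
    (h2 : ∀ n, (sm W (e n)).restrict (A n)ᶜ ≪ volume)
    (h3 : ∀ u ∈ M, (∀ n t, ⟪u, W.U t (e n)⟫_ℂ = 0) → u = 0) :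
    ∃ ψ ∈ M, M ≤ cyc W ψ := by
  have hcompl : CompleteSpace M := hM.completeSpace_coe
  set B : ℕ → Set ℝ := disjointed A with hBdef
  have hB : ∀ n, MeasurableSet (B n) := MeasurableSet.disjointed hA
  have hBA : ∀ n, B n ⊆ A n := fun n => disjointed_subset A n
  have hBd : ∀ k n, k ≠ n → B n ⊆ (B k)ᶜ := by
    intro k n hkn
    have := disjoint_disjointed A hkn
    exact Set.subset_compl_iff_disjoint_left.2 this
  have hBU : ⋃ n, B n = ⋃ n, A n := iUnion_disjointed
  choose g hg hg1 hg2 using fun n => exists_split W (e n) (hB n)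
  set c : ℕ → ℝ := fun n => (1 / 2) ^ n / (1 + ‖g n‖) with hc
  have hcpos : ∀ n, 0 < c n := fun n => by simp only [hc]; positivity
  have hsum : Summable fun n => ((c n : ℝ) : ℂ) • g n := by
    refine Summable.of_norm_bounded (g := fun n : ℕ => (1 / 2 : ℝ) ^ n)
      (summable_geometric_of_lt_one (by norm_num) (by norm_num)) fun n => ?_
    rw [norm_smul, Complex.norm_real, Real.norm_of_nonneg (hcpos n).le]
    simp only [hc]
    rw [div_mul_eq_mul_div, div_le_iff₀ (by positivity)]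
    have : (0 : ℝ) ≤ (1 / 2) ^ n := by positivity
    nlinarith [norm_nonneg (g n)]
  set φ : X := ∑' n, ((c n : ℝ) : ℂ) • g n with hφ
  have hφin : ∀ k t, ∀ w ∈ nul W (B k)ᶜ, ⟪w, W.U t φ⟫_ℂ = c k * ⟪w, W.U t (g k)⟫_ℂ := by
    intro k t w hw
    have h4 : HasSum (fun n => ((c n : ℝ) : ℂ) • g n) φ := hsum.hasSum
    have h5 := (h4.mapL (W.U t)).mapL (innerSL ℂ w)
    have h6 : ∀ n, n ≠ k → innerSL ℂ w (W.U t (((c n : ℝ) : ℂ) • g n)) = 0 := by
      intro n hn
      rw [innerSL_apply_apply, map_smul, inner_smul_right,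
        orth_of_nul (B := B n) (nul_mono (hBd k n (Ne.symm hn)) hw)
          (nul_U (nul_of_restrict (hB n) (hg1 n)) t), mul_zero]
    have h7 := (hasSum_single k h6).unique h5
    rw [innerSL_apply_apply, innerSL_apply_apply, map_smul, inner_smul_right] at h7
    exact h7.symm
  -- the key claim
  have key : ∀ u ∈ M, (∀ t, ⟪u, W.U t φ⟫_ℂ = 0) → u = 0 := by
    intro u hu huo
    have hcycM : cyc W u ≤ M := cyc_le hM fun t => hinv t u hu
    have hBn : ∀ k, sm W u (B k) = 0 := by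
      intro k
      obtain ⟨w, hwc, hw1, hw2⟩ := exists_split W u (hB k)
      have hwn : w ∈ nul W (B k)ᶜ := nul_of_restrict (hB k) hw1
      have h4 : ∀ t, ⟪w, W.U t (g k)⟫_ℂ = 0 := by
        intro t
        have h5 : ⟪w, W.U t φ⟫_ℂ = 0 := orth_cyc₂ huo hwc (U_mem_cyc W φ t)
        rw [hφin k t w hwn] at h5
        exact (mul_eq_zero.1 h5).resolve_left (by exact_mod_cast (hcpos k).ne')
      have h6 : ∀ t, ⟪w, W.U t (e k)⟫_ℂ = 0 := by
        intro t
        have h7 : ⟪w, W.U t (e k - g k)⟫_ℂ = 0 := by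
          refine orth_of_nul (B := (B k)ᶜ) hwn ?_
          rw [compl_compl]
          exact nul_U (nul_of_restrict' (hB k) (hg2 k)) t
        rw [map_sub, inner_sub_right, h4, sub_zero] at h7
        exact h7
      have h8 : w = 0 :=
        eq_zero_of_nul (B := B k) (nul_mono (hBA k) (mem_nul.2 (h1 k w h6))) hwn
      rw [h8, sm_zero] at hw1
      exact Measure.restrict_eq_zero.1 hw1.symm
    have hU : sm W u (⋃ n, A n) = 0 := by
      rw [← hBU]
      exact measure_iUnion_null hBn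
    have hUm : MeasurableSet (⋃ n, A n) := MeasurableSet.iUnion hA
    obtain ⟨w, hwc, hw1, hw2⟩ := exists_split W u hUm.compl
    have hwM : w ∈ M := hcycM hwc
    have hw0 : w = 0 := by
      refine h3 w hwM fun n t => ?_
      obtain ⟨S, hS, hS1, hS2⟩ := hs w hwM
      obtain ⟨a, -, ha1, ha2⟩ := exists_split W (e n) (hA n)
      have h4 : ⟪w, W.U t a⟫_ℂ = 0 := by
        refine orth_of_nul (B := A n) ?_ (nul_U (nul_of_restrict (hA n) ha1) t)
        have h5 := nul_of_restrict hUm.compl hw1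
        rw [compl_compl] at h5
        exact nul_mono (Set.subset_iUnion A n) h5
      have h6 : ⟪w, W.U t (e n - a)⟫_ℂ = 0 := by
        refine orth_of_nul (B := S) hS1 (nul_U ?_ t)
        rw [mem_nul, ha2]
        exact h2 n hS2
      have h7 : e n = a + (e n - a) := by abel
      rw [h7, map_add, inner_add_right, h4, h6, add_zero]
    rw [hw0, sm_zero] at hw1
    have h9 : sm W u (⋃ n, A n)ᶜ = 0 := Measure.restrict_eq_zero.1 hw1.symm
    exact eq_zero_of_nul (B := ⋃ n, A n) (mem_nul.2 hU) (mem_nul.2 h9)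
  -- projection
  set ψ : X := M.starProjection φ with hψ
  have hψM : ψ ∈ M := Submodule.starProjection_apply_mem _ _
  refine ⟨ψ, hψM, fun v hv => ?_⟩
  obtain ⟨p, hp, hpo⟩ := exists_proj W ψ v
  have hpM : p ∈ M := (cyc_le hM fun t => hinv t ψ hψM) hp
  have hz : v - p = 0 := by
    refine key (v - p) (M.sub_mem hv hpM) fun t => ?_
    have h4 := hpo _ (U_mem_cyc W ψ t)
    have h5 : ⟪v - p, W.U t (φ - ψ)⟫_ℂ = 0 := by
      have h6 : ⟪φ - ψ, W.U (-t) (v - p)⟫_ℂ = 0 :=
        Submodule.starProjection_inner_eq_zero φ _ (hinv (-t) _ (M.sub_mem hv hpM))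
      rw [← inner_conj_symm, inner_adj, h6, map_zero]
    have h7 : φ = ψ + (φ - ψ) := by abel
    rw [h7, map_add, inner_add_right, h4, h5, add_zero]
  rw [sub_eq_zero.1 hz]
  exact hp

/-- the spectral measure of an eigenvector -/
theorem sm_eigen {W : UG X} {u : X} {E : ℝ}
    (h : ∀ t : ℝ, W.U t u = Complex.exp (-(Complex.I * t * E)) • u) :
    sm W u = ENNReal.ofReal (‖u‖ ^ 2) • Measure.dirac E := by
  have hf : IsFiniteMeasure (ENNReal.ofReal (‖u‖ ^ 2) • Measure.dirac E) :=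
    Measure.smul_finite _ ENNReal.ofReal_ne_top
  refine sm_eq ⟨hf, fun t => ?_⟩
  rw [h t, inner_smul_right, inner_self_eq_norm_sq_to_K, integral_smul_measure, integral_dirac,
    ENNReal.toReal_ofReal (by positivity), Complex.real_smul, mul_comm]
  push_cast
  rfl

theorem eigen_nul {W : UG X} {u : X} {E : ℝ}
    (h : ∀ t : ℝ, W.U t u = Complex.exp (-(Complex.I * t * E)) • u) : u ∈ nul W {E}ᶜ := by
  rw [mem_nul, sm_eigen h, Measure.smul_apply,
    Measure.dirac_apply' E (measurableSet_singleton E).compl]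
  simp

/-- simplicity of eigenvalues -/
theorem eigen_simple {W : UG X} {e : X} {A : Set ℝ}
    (h1 : ∀ φ, (∀ t, ⟪φ, W.U t e⟫_ℂ = 0) → sm W φ A = 0)
    (h2 : (sm W e).restrict Aᶜ ≪ volume) (hA : MeasurableSet A) {φ ψ : X} {E : ℝ}
    (hφ : ∀ t : ℝ, W.U t φ = Complex.exp (-(Complex.I * t * E)) • φ)
    (hψ : ∀ t : ℝ, W.U t ψ = Complex.exp (-(Complex.I * t * E)) • ψ)
    (hne : ⟪e, φ⟫_ℂ ≠ 0) : ψ = (⟪e, ψ⟫_ℂ / ⟪e, φ⟫_ℂ) • φ := by
  have hEA : E ∈ A := by
    by_contra hE
    have h3 : e ∈ nul W {E} := by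
      have h4 : (sm W e).restrict Aᶜ {E} = 0 := h2 (by simp)
      rw [Measure.restrict_apply (measurableSet_singleton E),
        Set.inter_eq_left.2 (Set.singleton_subset_iff.2 hE)] at h4
      exact mem_nul.2 h4
    exact hne (orth_of_nul h3 (eigen_nul hφ))
  set χ : X := ψ - (⟪e, ψ⟫_ℂ / ⟪e, φ⟫_ℂ) • φ with hχ
  have hχe : ∀ t : ℝ, W.U t χ = Complex.exp (-(Complex.I * t * E)) • χ := by
    intro t
    rw [hχ, map_sub, map_smul, hφ, hψ, smul_sub, smul_comm]
  have h3 : ∀ t, ⟪χ, W.U t e⟫_ℂ = 0 := by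
    intro t
    have h4 : ⟪e, χ⟫_ℂ = 0 := by
      rw [hχ, inner_sub_right, inner_smul_right, div_mul_cancel₀ _ hne, sub_self]
    rw [← inner_conj_symm, inner_adj, hχe, inner_smul_right, h4, mul_zero, map_zero]
  have h5 : χ ∈ nul W {E} := nul_mono (Set.singleton_subset_iff.2 hEA) (mem_nul.2 (h1 χ h3))
  have h6 : χ = 0 := eq_zero_of_nul h5 (eigen_nul hχe)
  exact sub_eq_zero.1 h6

end Pool.Agent.K7.H83.SI
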