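import Pool.Agent.K7.H83.SI.Meas
import Pool.Agent.K7.H96.CYC.Meas

/-! # Simplicity of the singular spectrum -/

set_option autoImplicit false

open MeasureTheory Filter Topology ProbabilityTheory
open scoped BigOperators ENNReal NNReal InnerProductSpace ComplexConjugate

namespace Pool.Agent.K7.H83.SI

open Pool.Agent.H5R2.NB ANTI

section gen

variable {X : Type} [NormedAddCommGroup X] [InnerProductSpace ℂ X]

/-- the vectors orthogonal to all `ψ` with `P ψ` -/
def orthP (P : X → Prop) : Submodule ℂ X where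
  carrier := {u | ∀ ψ, P ψ → ⟪ψ, u⟫_ℂ = 0}
  add_mem' := by
    intro u v hu hv ψ hψ
    rw [inner_add_right, hu ψ hψ, hv ψ hψ, add_zero]
  zero_mem' := fun ψ _ => inner_zero_right ψ
  smul_mem' := by
    intro c u hu ψ hψ
    rw [inner_smul_right, hu ψ hψ, mul_zero]

theorem mem_orthP {P : X → Prop} {u : X} : u ∈ orthP P ↔ ∀ ψ, P ψ → ⟪ψ, u⟫_ℂ = 0 := Iff.rfl

theorem orthP_closed (P : X → Prop) : IsClosed (orthP P : Set X) := by
  have e : (orthP P : Set X) = ⋂ ψ : X, ⋂ _ : P ψ, {u | ⟪ψ, u⟫_ℂ = 0} := by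
    ext u
    simp only [Set.mem_iInter]
    exact Iff.rfl
  rw [e]
  refine isClosed_iInter fun ψ => isClosed_iInter fun _ => ?_
  exact isClosed_eq (continuous_const.inner continuous_id) continuous_const

theorem orthP_inv {P : X → Prop} {W : UG X} (hP : ∀ t ψ, P ψ → P (W.U t ψ)) (t : ℝ) (u : X)
    (hu : u ∈ orthP P) : W.U t u ∈ orthP P := by
  intro ψ hψ
  have h := hu _ (hP (-t) ψ hψ)
  rw [inner_adj, neg_neg] at h
  exact h

theorem eig_U {W : UG X} {E : ℝ} {ψ : X}
    (h : ∀ t : ℝ, W.U t ψ = Complex.exp (-(Complex.I * t * E)) • ψ) (s t : ℝ) :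
    W.U t (W.U s ψ) = Complex.exp (-(Complex.I * t * E)) • W.U s ψ := by
  rw [h s, map_smul, h t, smul_comm]

end gen

variable {d : ℕ}

/-- cyclic vector for a fixed potential -/
theorem cyclic_fix {W : UG (L2 (Site d))} {V : Site d → ℝ} {J : Set ℝ}
    (h1 : ∀ x : Site d, V x ∈ J → ∀ φ : L2 (Site d),
      (∀ t, ⟪φ, W.U t (dl x)⟫_ℂ = 0) → sm W φ (bl W x) = 0)
    {M : Submodule ℂ (L2 (Site d))} (hM : IsClosed (M : Set (L2 (Site d))))
    (hinv : ∀ t, ∀ u ∈ M, W.U t u ∈ M) (hs : ∀ u ∈ M, sm W u ⟂ₘ volume)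
    (h2 : ∀ u ∈ M, u ∈ closure (Submodule.span ℂ
      {y : L2 (Site d) | ∃ x ∈ {x : Site d | V x ∈ J}, ∃ t : ℝ, y = W.U t (dl x)} :
        Set (L2 (Site d)))) :
    ∃ ψ ∈ M, M ≤ cyc W ψ := by
  classical
  obtain ⟨s, hsurj⟩ := exists_surjective_nat (Site d)
  refine exists_cyclic hM hinv hs (fun n => if V (s n) ∈ J then dl (s n) else 0)
    (fun n => if V (s n) ∈ J then bl W (s n) else ∅) (fun n => ?_) (fun n φ hφ => ?_)
    (fun n => ?_) (fun u hu h => ?_)
  · split_ifs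
    · exact bl_meas _ _
    · exact MeasurableSet.empty
  · split_ifs with hn
    · refine h1 (s n) hn φ fun t => ?_
      have := hφ t
      rwa [if_pos hn] at this
    · exact measure_empty
  · split_ifs with hn
    · exact bl_ac _ _
    · rw [sm_zero, Measure.restrict_zero]
      exact Measure.AbsolutelyContinuous.zero _
  · have h3 : (Submodule.span ℂ
        {y : L2 (Site d) | ∃ x ∈ {x : Site d | V x ∈ J}, ∃ t : ℝ, y = W.U t (dl x)}) ≤
        (ℂ ∙ u)ᗮ := by
      rw [Submodule.span_le]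
      rintro y ⟨x, hx, t, rfl⟩
      obtain ⟨n, rfl⟩ := hsurj x
      have h4 := h n t
      have hx' : V (s n) ∈ J := hx
      rw [if_pos hx'] at h4
      exact Submodule.mem_orthogonal_singleton_iff_inner_right.2 h4
    have h4 : u ∈ (ℂ ∙ u)ᗮ :=
      (closure_minimal h3 (Submodule.isClosed_orthogonal _)) (h2 u hu)
    exact inner_self_eq_zero.1 (Submodule.mem_orthogonal_singleton_iff_inner_right.1 h4)

end Pool.Agent.K7.H83.SI
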