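import Pool.Agent.K7.H83.SI.Rk
import Pool.Agent.H5R2.NB.ALL
import Pool.Agent.K7.H96.NBT.Main

/-! # The random potential: sets carrying the singular spectrum -/

set_option autoImplicit false

open MeasureTheory Filter Topology ProbabilityTheory
open scoped BigOperators ENNReal NNReal InnerProductSpace ComplexConjugate

namespace Pool.Agent.K7.H83.SI

open Pool.Agent.H5R2.NB ANTI

variable {d : ℕ}

theorem norm_dl (x : Site d) : ‖(dl x : L2 (Site d))‖ = 1 := by
  unfold dl
  rw [lp.norm_single (by norm_num)]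
  simp

theorem dl_apply (x y : Site d) : (dl x : L2 (Site d)) y = if y = x then (1 : ℂ) else 0 := by
  unfold dl
  rw [lp.single_apply]
  by_cases h : y = x
  · subst h; simp
  · simp [h]

/-- changing the potential at a site, Duhamel's formula for the correlation function -/
theorem volt {c : ℝ} {ev : (Site d → ℝ) → UG (L2 (Site d))} (hev : ∀ V, IsGrp c V (ev V))
    (x : Site d) (V : Site d → ℝ) (κ κ' t : ℝ) :
    ⟪dl x, (ev (Function.update V x κ')).U t (dl x)⟫_ℂ =
      ⟪dl x, (ev (Function.update V x κ)).U t (dl x)⟫_ℂ - (Complex.I * ((κ' - κ : ℝ) : ℂ)) *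
      ∫ s in (0 : ℝ)..t, ⟪dl x, (ev (Function.update V x κ')).U s (dl x)⟫_ℂ *
        ⟪dl x, (ev (Function.update V x κ)).U (t - s) (dl x)⟫_ℂ := by
  have h0 := hev (Function.update V x κ') (dl x)
  set W := ev (Function.update V x κ) with hW
  set W' := ev (Function.update V x κ') with hW'
  set h : ℝ → L2 (Site d) := fun s =>
    (-(Complex.I * ((κ' - κ : ℝ) : ℂ))) • (⟪dl x, W'.U s (dl x)⟫_ℂ • dl x) with hh
  have hc2 : Continuous fun s => ⟪dl x, W'.U s (dl x)⟫_ℂ :=
    Continuous.inner continuous_const (W'.cont' (dl x))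
  have hcont : Continuous h := by
    have h3 : Continuous fun s => ⟪dl x, W'.U s (dl x)⟫_ℂ • dl x :=
      hc2.smul (continuous_const (y := dl x))
    exact h3.const_smul (-(Complex.I * ((κ' - κ : ℝ) : ℂ)))
  have hsol : IsSol c (Function.update V x κ) (fun t => W'.U t (dl x)) h := by
    refine ⟨h0.1, fun s y => ?_⟩
    have h3 := h0.2 s y
    convert h3 using 1
    have e1 : (h s) y = -(Complex.I * ((κ' - κ : ℝ) : ℂ)) *
        ((W'.U s (dl x)) x * (if y = x then (1 : ℂ) else 0)) := by
      simp only [hh]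
      rw [lp.coeFn_smul, Pi.smul_apply, lp.coeFn_smul, Pi.smul_apply, dl_apply, dl_inner,
        smul_eq_mul, smul_eq_mul]
    have e2 : ((0 : L2 (Site d))) y = 0 := rfl
    simp only [e1, e2]
    by_cases hy : y = x
    · subst hy
      simp only [Function.update_self, if_true]
      push_cast
      ring
    · simp only [Function.update_of_ne hy, if_neg hy]
      ring
  have h4 := ALL.a_UN d c (Function.update V x κ) W (hev _) (fun t => W'.U t (dl x)) h hcont hsol t
  have h5 : ∀ s, W.U (t - s) (h s) = (-(Complex.I * ((κ' - κ : ℝ) : ℂ))) •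
      (⟪dl x, W'.U s (dl x)⟫_ℂ • W.U (t - s) (dl x)) := by
    intro s
    simp only [hh]
    rw [map_smul, map_smul]
  simp only [h5] at h4
  rw [intervalIntegral.integral_smul, W'.zero'] at h4
  have hc3 : Continuous fun s => ⟪dl x, W'.U s (dl x)⟫_ℂ • W.U (t - s) (dl x) :=
    hc2.smul ((W.cont' (dl x)).comp (by fun_prop))
  have h6 := inner_integral (dl x) (fun s => ⟪dl x, W'.U s (dl x)⟫_ℂ • W.U (t - s) (dl x)) hc3 0 t
  rw [h4, inner_add_right, inner_smul_right]
  refine (congrArg (fun z => ⟪dl x, W.U t (dl x)⟫_ℂ + -(Complex.I * ((κ' - κ : ℝ) : ℂ)) * z)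
    h6).trans ?_
  simp only [inner_smul_right]
  ring

theorem corr_cont {c : ℝ} {ev : (Site d → ℝ) → UG (L2 (Site d))} (hev : ∀ V, IsGrp c V (ev V))
    (x : Site d) : Continuous fun p : (Site d → ℝ) × ℝ => ⟪dl x, (ev p.1).U p.2 (dl x)⟫_ℂ := by
  have h := ALL.a_CV d c ev hev
  have h2 : Continuous fun p : (Site d → ℝ) × ℝ => (ev p.1).U p.2 (dl x) :=
    h.comp (show Continuous fun p : (Site d → ℝ) × ℝ => (p.1, p.2, (dl x : L2 (Site d))) by fun_prop)
  exact continuous_const.inner h2

theorem corr_bd (W : UG (L2 (Site d))) (x : Site d) (t : ℝ) :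
    ‖⟪dl x, W.U t (dl x)⟫_ℂ‖ ≤ 1 := by
  refine (norm_inner_le_norm _ _).trans ?_
  rw [W.norm', norm_dl, one_mul]

/-- the blow up set at the site `x` -/
noncomputable def bl (W : UG (L2 (Site d))) (x : Site d) : Set ℝ :=
  AA fun t => ⟪dl x, W.U t (dl x)⟫_ℂ

theorem bl_meas (W : UG (L2 (Site d))) (x : Site d) : MeasurableSet (bl W x) :=
  AA_meas (continuous_const.inner (W.cont' (dl x))) (corr_bd W x)

theorem bl_ac (W : UG (L2 (Site d))) (x : Site d) :
    (sm W (dl x)).restrict (bl W x)ᶜ ≪ volume :=
  AA_ac fun t => sm_inner W (dl x) t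

theorem bl_disj {c : ℝ} {ev : (Site d → ℝ) → UG (L2 (Site d))} (hev : ∀ V, IsGrp c V (ev V))
    (x : Site d) (V : Site d → ℝ) {κ κ' : ℝ} (hne : κ ≠ κ') :
    Disjoint (bl (ev (Function.update V x κ)) x) (bl (ev (Function.update V x κ')) x) := by
  refine AA_disj (C := 1) (c := Complex.I * ((κ' - κ : ℝ) : ℂ))
    (continuous_const.inner ((ev _).cont' (dl x))) (continuous_const.inner ((ev _).cont' (dl x)))
    (corr_bd _ x) (corr_bd _ x) ?_ (volt hev x V κ κ')
  refine mul_ne_zero Complex.I_ne_zero ?_
  have : κ' - κ ≠ 0 := sub_ne_zero.2 hne.symm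
  exact_mod_cast this

theorem sm_prob (W : UG (L2 (Site d))) (y : Site d) : IsProbabilityMeasure (sm W (dl y)) :=
  ⟨by rw [sm_univ, norm_dl]; simp⟩

/-- measurability of the spectral measures in the potential -/
theorem sm_measurable {c : ℝ} {ev : (Site d → ℝ) → UG (L2 (Site d))}
    (hev : ∀ V, IsGrp c V (ev V)) (y : Site d) : Measurable fun V => sm (ev V) (dl y) := by
  have hp : ∀ V, IsProbabilityMeasure (sm (ev V) (dl y)) := fun V => sm_prob _ y
  have hw : ∀ f : BoundedContinuousFunction ℝ ℝ≥0,
      Continuous fun V => ∫⁻ E, f E ∂(sm (ev V) (dl y)) := by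
    intro f
    refine SeqContinuous.continuous fun u V hu => ?_
    let P : (Site d → ℝ) → ProbabilityMeasure ℝ := fun V' => ⟨sm (ev V') (dl y), hp V'⟩
    have h1 : Tendsto (fun n => P (u n)) atTop (𝓝 (P V)) := by
      refine ProbabilityMeasure.tendsto_of_tendsto_charFun fun s => ?_
      simp only [P, ProbabilityMeasure.coe_mk]
      have e : ∀ V', charFun (sm (ev V') (dl y)) s = ⟪dl y, (ev V').U (-s) (dl y)⟫_ℂ := by
        intro V'
        rw [sm_inner, exp_charFun, neg_neg]
      simp only [e]
      have hc := corr_cont hev y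
      have hc2 : Continuous fun V' => ⟪dl y, (ev V').U (-s) (dl y)⟫_ℂ :=
        hc.comp (show Continuous fun V' : Site d → ℝ => (V', -s) by fun_prop)
      exact (hc2.tendsto V).comp hu
    rw [ProbabilityMeasure.tendsto_iff_forall_lintegral_tendsto] at h1
    exact h1 f
  refine Measurable.measure_of_isPiSystem_of_isProbabilityMeasure
    (S := {F : Set ℝ | IsClosed F}) ?_ isPiSystem_isClosed fun F hF => ?_
  · rw [BorelSpace.measurable_eq (α := ℝ), borel_eq_generateFrom_isClosed]
  · have hδ : ∀ n : ℕ, (0 : ℝ) < 1 / ((n : ℝ) + 1) := fun n => by positivity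
    refine measurable_of_tendsto_metrizable (f := fun (n : ℕ) V =>
      ∫⁻ E, (thickenedIndicator (hδ n) F E : ℝ≥0∞) ∂(sm (ev V) (dl y)))
      (fun n => (hw (thickenedIndicator (hδ n) F)).measurable) ?_
    rw [tendsto_pi_nhds]
    intro V
    exact tendsto_lintegral_thickenedIndicator_of_isClosed _ hF hδ
      tendsto_one_div_add_atTop_nhds_zero_nat

theorem upd_meas (x : Site d) : Measurable
    (fun p : (Site d → ℝ) × ℝ => Function.update p.1 x p.2) := by
  rw [measurable_pi_iff]
  intro i
  by_cases h : i = x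
  · subst h
    simp only [Function.update_self]
    exact measurable_snd
  · simp only [Function.update_of_ne h]
    exact (measurable_pi_apply i).comp measurable_fst

/-- resampling the site `x` -/
theorem resample (x : Site d) (ν : Measure ℝ) [IsProbabilityMeasure ν] :
    MeasurePreserving (fun p : (Site d → ℝ) × ℝ => Function.update p.1 x p.2)
      ((PP d ν).prod ν) (PP d ν) := by
  refine ⟨upd_meas x, ?_⟩
  apply Measure.eq_infinitePi
  intro s t ht
  classical
  rw [Measure.map_apply (upd_meas x)]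
  swap
  · exact MeasurableSet.pi (Finset.countable_toSet s) (fun i _ => ht i)
  have hpre : (fun p : (Site d → ℝ) × ℝ => Function.update p.1 x p.2) ⁻¹'
      ((s : Set (Site d)).pi t) =
      (((s.erase x : Finset (Site d)) : Set (Site d)).pi t) ×ˢ
        (if x ∈ s then t x else Set.univ) := by
    ext p
    simp only [Set.mem_preimage, Set.mem_pi, Finset.mem_coe, Set.mem_prod, Finset.mem_erase]
    constructor
    · intro h
      refine ⟨?_, ?_⟩
      · intro i hi
        have := h i hi.2
        rwa [Function.update_of_ne hi.1] at this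
      · split_ifs with h0
        · have := h x h0
          rwa [Function.update_self] at this
        · trivial
    · rintro ⟨h1, h2⟩ i hi
      by_cases h0 : i = x
      · subst h0
        rw [Function.update_self]
        rwa [if_pos hi] at h2
      · rw [Function.update_of_ne h0]
        exact h1 i ⟨h0, hi⟩
  rw [hpre, Measure.prod_prod]
  unfold PP
  rw [Measure.infinitePi_pi (fun _ => ν) (fun i _ => ht i)]
  by_cases h0 : x ∈ s
  · rw [if_pos h0, Finset.prod_erase_mul s (fun i => ν (t i)) h0]
  · rw [if_neg h0, measure_univ, mul_one, Finset.erase_eq_of_notMem h0]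

/-- the points which are not atoms -/
theorem atoms_countable (ν : Measure ℝ) [IsProbabilityMeasure ν] : {r : ℝ | ν {r} ≠ 0}.Countable := by
  have h := Measure.countable_meas_pos_of_disjoint_iUnion (μ := ν) (As := fun r : ℝ => {r})
    (fun r => measurableSet_singleton r) (fun a b hab => by
      simpa [Function.onFun] using hab)
  refine h.mono fun r hr => ?_
  exact pos_iff_ne_zero.2 hr

theorem nonatoms_meas (ν : Measure ℝ) [IsProbabilityMeasure ν] :
    MeasurableSet {r : ℝ | ν {r} = 0} := by
  have h := (atoms_countable ν).measurableSet.compl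
  have e : {r : ℝ | ν {r} = 0} = {r : ℝ | ν {r} ≠ 0}ᶜ := by
    ext r
    simp
  rw [e]
  exact h

/-- **the key null set** -/
theorem bad_null {c : ℝ} {ev : (Site d → ℝ) → UG (L2 (Site d))} (hev : ∀ V, IsGrp c V (ev V))
    (ν : Measure ℝ) [IsProbabilityMeasure ν] (x y : Site d) :
    ∀ᵐ V ∂(PP d ν), ν {V x} = 0 →
      sm (ev (Function.update V x 0)) (dl y) (bl (ev V) x) = 0 := by
  set Bad : Set (Site d → ℝ) := {V | ν {V x} = 0} ∩
    {V | sm (ev (Function.update V x 0)) (dl y) (bl (ev V) x) ≠ 0} with hBad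
  have hu0 : Measurable fun V : Site d → ℝ => Function.update V x 0 :=
    (upd_meas x).comp (by fun_prop : Measurable fun V : Site d → ℝ => (V, (0 : ℝ)))
  have hker : Measurable fun V => sm (ev (Function.update V x 0)) (dl y) :=
    (sm_measurable hev y).comp hu0
  have hm1 : MeasurableSet {V : Site d → ℝ | ν {V x} = 0} :=
    (measurable_pi_apply x : Measurable fun V : Site d → ℝ => V x) (nonatoms_meas ν)
  have hm2 : Measurable fun V => sm (ev (Function.update V x 0)) (dl y) (bl (ev V) x) := by
    let K : Kernel (Site d → ℝ) ℝ := ⟨fun V => sm (ev (Function.update V x 0)) (dl y), hker⟩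
    have hK : IsMarkovKernel K := ⟨fun V => sm_prob _ y⟩
    have ht : MeasurableSet {p : (Site d → ℝ) × ℝ | p.2 ∈ bl (ev p.1) x} :=
      AA_joint (Y := Site d → ℝ) (a := fun V t => ⟪dl x, (ev V).U t (dl x)⟫_ℂ) (corr_cont hev x)
        (C := 1) (fun V t => corr_bd _ x t)
    exact Kernel.measurable_kernel_prodMk_left (κ := K) ht
  have hBm : MeasurableSet Bad :=
    hm1.inter (hm2 (measurableSet_singleton (0 : ℝ≥0∞)).compl)
  have h0 : PP d ν Bad = 0 := by
    have hres := resample x ν
    rw [← hres.measure_preimage hBm.nullMeasurableSet,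
      Measure.measure_prod_null (hres.measurable hBm)]
    refine Eventually.of_forall fun V => ?_
    simp only [Pi.zero_apply]
    have hcount : {κ : ℝ | 0 < sm (ev (Function.update V x 0)) (dl y)
        (bl (ev (Function.update V x κ)) x)}.Countable := by
      refine Measure.countable_meas_pos_of_disjoint_iUnion
        (As := fun κ => bl (ev (Function.update V x κ)) x) (fun κ => bl_meas _ x) ?_
      intro κ κ' hne
      exact bl_disj hev x V hne
    have hsub : (Prod.mk V ⁻¹' ((fun p : (Site d → ℝ) × ℝ => Function.update p.1 x p.2) ⁻¹' Bad)) ⊆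
        ⋃ κ ∈ {κ : ℝ | 0 < sm (ev (Function.update V x 0)) (dl y)
          (bl (ev (Function.update V x κ)) x)} ∩ {κ | ν {κ} = 0}, {κ} := by
      intro κ hκ
      simp only [hBad, Set.mem_preimage, Set.mem_inter_iff, Set.mem_ofPred_eq,
        Function.update_self, Function.update_idem] at hκ
      simp only [Set.mem_iUnion, Set.mem_singleton_iff, exists_prop, exists_eq_right',
        Set.mem_inter_iff, Set.mem_ofPred_eq]
      exact ⟨pos_iff_ne_zero.2 hκ.2, hκ.1⟩
    refine measure_mono_null hsub ?_
    refine (measure_biUnion_null_iff (hcount.mono Set.inter_subset_left)).2 fun κ hκ => hκ.2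
  have h1 := measure_eq_zero_iff_ae_notMem.1 h0
  filter_upwards [h1] with V hV hat
  by_contra hne
  exact hV ⟨hat, hne⟩

/-- **vectors which are orthogonal to the cyclic subspace of `δ_x` do not charge the blow up
set** -/
theorem orth_null {c : ℝ} {ev : (Site d → ℝ) → UG (L2 (Site d))} (hev : ∀ V, IsGrp c V (ev V))
    (ν : Measure ℝ) [IsProbabilityMeasure ν] :
    ∀ᵐ V ∂(PP d ν), ∀ x : Site d, ν {V x} = 0 → ∀ φ : L2 (Site d),
      (∀ t, ⟪φ, (ev V).U t (dl x)⟫_ℂ = 0) → sm (ev V) φ (bl (ev V) x) = 0 := by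
  have h : ∀ᵐ V ∂(PP d ν), ∀ x y : Site d, ν {V x} = 0 →
      sm (ev (Function.update V x 0)) (dl y) (bl (ev V) x) = 0 := by
    rw [ae_all_iff]
    intro x
    rw [ae_all_iff]
    intro y
    exact bad_null hev ν x y
  filter_upwards [h] with V hV x hx φ hφ
  have h1 : ∀ t, (ev (Function.update V x 0)).U t φ = (ev V).U t φ := by
    refine Pool.Agent.K7.H96.NBT.orbit_eq (hev V) (hev _) fun z hz t => ?_
    have hzx : z = x := by
      by_contra hne
      exact hz (Function.update_of_ne hne _ _).symm
    rw [hzx, ← dl_inner, ← inner_conj_symm, inner_adj, hφ, map_zero]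
  have h2 : sm (ev V) φ = sm (ev (Function.update V x 0)) φ :=
    sm_ext_iff fun t => by rw [h1]
  rw [h2]
  have h3 : φ ∈ nul (ev (Function.update V x 0)) (bl (ev V) x) := by
    have h4 : closure (Submodule.span ℂ (Set.range (dl (d := d))) : Set (L2 (Site d))) ⊆
        nul (ev (Function.update V x 0)) (bl (ev V) x) := by
      refine closure_minimal ?_ (nul_closed _ _)
      have h5 : Submodule.span ℂ (Set.range (dl (d := d))) ≤
          nul (ev (Function.update V x 0)) (bl (ev V) x) := by
        rw [Submodule.span_le]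
        rintro _ ⟨y, rfl⟩
        exact hV x y hx
      exact h5
    exact h4 (LIMB.dl_dense d φ)
  exact h3

end Pool.Agent.K7.H83.SI
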