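import Pool.Agent.K7.H83.SI.Det

/-! # Rank one perturbations: disjointness of the sets where the Borel transform blows up -/

set_option autoImplicit false

open MeasureTheory Filter Topology
open scoped BigOperators ENNReal NNReal InnerProductSpace ComplexConjugate

namespace Pool.Agent.K7.H83.SI

open Pool.Agent.H5R2.NB ANTI

/-- the kernel `exp((iE-ε)t)` -/
noncomputable def kr (E ε t : ℝ) : ℂ := Complex.exp ((Complex.I * E - ε) * t)

theorem norm_kr (E ε t : ℝ) : ‖kr E ε t‖ = Real.exp (-ε * t) := by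
  unfold kr
  rw [Complex.norm_exp]
  congr 1
  simp

theorem kr_add (E ε s t : ℝ) : kr E ε (s + t) = kr E ε s * kr E ε t := by
  unfold kr
  rw [← Complex.exp_add]
  congr 1
  push_cast
  ring

theorem kr_cont (E ε : ℝ) : Continuous (kr E ε) := by unfold kr; fun_prop

theorem exp_intble {ε : ℝ} (hε : 0 < ε) :
    Integrable (fun t : ℝ => Real.exp (-ε * t)) (volume.restrict (Set.Ioi 0)) :=
  integrableOn_exp_mul_Ioi (by linarith) 0

/-- the Laplace transform of `a` -/
noncomputable def LT (a : ℝ → ℂ) (E ε : ℝ) : ℂ := ∫ t in Set.Ioi (0 : ℝ), kr E ε t * a t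

theorem LT_int {a : ℝ → ℂ} (ha : Continuous a) {C : ℝ} (hC : ∀ t, ‖a t‖ ≤ C) (E : ℝ) {ε : ℝ}
    (hε : 0 < ε) : IntegrableOn (fun t => kr E ε t * a t) (Set.Ioi 0) := by
  refine ((exp_intble hε).mul_const C).mono' ((kr_cont E ε).mul ha).aestronglyMeasurable
    (Eventually.of_forall fun t => ?_)
  rw [norm_mul, norm_kr]
  exact mul_le_mul_of_nonneg_left (hC t) (Real.exp_pos _).le

/-- Laplace transform of a Volterra equation -/
theorem LT_volterra {a b : ℝ → ℂ} (ha : Continuous a) (hb : Continuous b) {C : ℝ}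
    (hCa : ∀ t, ‖a t‖ ≤ C) (hCb : ∀ t, ‖b t‖ ≤ C) {c : ℂ}
    (h : ∀ t, b t = a t - c * ∫ s in (0 : ℝ)..t, b s * a (t - s)) (E : ℝ) {ε : ℝ} (hε : 0 < ε) :
    LT b E ε = LT a E ε - c * (LT b E ε * LT a E ε) := by
  have h1 := integral_posConvolution (μ := volume) (ν := volume) (LT_int hb hCb E hε)
    (LT_int ha hCa E hε) (ContinuousLinearMap.mul ℝ ℂ)
  simp only [ContinuousLinearMap.mul_apply'] at h1
  have h2 : ∀ x : ℝ, ∫ t in (0 : ℝ)..x, kr E ε t * b t * (kr E ε (x - t) * a (x - t)) =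
      kr E ε x * ∫ t in (0 : ℝ)..x, b t * a (x - t) := by
    intro x
    rw [← intervalIntegral.integral_const_mul]
    refine intervalIntegral.integral_congr fun t _ => ?_
    have e : kr E ε x = kr E ε t * kr E ε (x - t) := by
      rw [← kr_add, add_sub_cancel]
    simp only [e]
    ring
  simp_rw [h2] at h1
  have h3 : LT b E ε * LT a E ε =
      ∫ x in Set.Ioi (0 : ℝ), kr E ε x * ∫ t in (0 : ℝ)..x, b t * a (x - t) := h1.symm
  by_cases hc : c = 0
  · subst hc
    have : b = a := by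
      funext t
      rw [h t]
      ring
    rw [this]
    ring
  have h4 : ∀ x, c * (kr E ε x * ∫ t in (0 : ℝ)..x, b t * a (x - t)) =
      kr E ε x * a x - kr E ε x * b x := by
    intro x
    rw [h x]
    ring
  rw [h3, ← integral_const_mul]
  simp_rw [h4]
  rw [integral_sub (LT_int ha hCa E hε) (LT_int hb hCb E hε)]
  unfold LT
  ring

/-- joint continuity -/
theorem LT_cont {Y : Type*} [TopologicalSpace Y] [FirstCountableTopology Y] {a : Y → ℝ → ℂ}
    (ha : Continuous fun p : Y × ℝ => a p.1 p.2) {C : ℝ} (hC : ∀ y t, ‖a y t‖ ≤ C) {ε : ℝ}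
    (hε : 0 < ε) : Continuous fun p : Y × ℝ => LT (a p.1) p.2 ε := by
  unfold LT
  refine continuous_of_dominated (bound := fun t => Real.exp (-ε * t) * C) (fun p => ?_)
    (fun p => Eventually.of_forall fun t => ?_) ((exp_intble hε).mul_const C)
    (Eventually.of_forall fun t => ?_)
  · have : Continuous fun t => a p.1 t :=
      ha.comp (show Continuous fun t : ℝ => (p.1, t) by fun_prop)
    exact ((kr_cont _ _).mul this).aestronglyMeasurable
  · rw [norm_mul, norm_kr]
    exact mul_le_mul_of_nonneg_left (hC _ t) (Real.exp_pos _).le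
  · have h1 : Continuous fun p : Y × ℝ => a p.1 t :=
      ha.comp (show Continuous fun p : Y × ℝ => (p.1, t) by fun_prop)
    have h2 : Continuous fun p : Y × ℝ => kr p.2 ε t := by unfold kr; fun_prop
    exact h2.mul h1

/-- the set where the Laplace transform blows up -/
def AA (a : ℝ → ℂ) : Set ℝ :=
  {E | Tendsto (fun n : ℕ => ‖LT a E (1 / ((n : ℝ) + 1))‖) atTop atTop}

theorem AA_joint {Y : Type*} [TopologicalSpace Y] [FirstCountableTopology Y]
    [SecondCountableTopology Y] [MeasurableSpace Y] [BorelSpace Y] {a : Y → ℝ → ℂ}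
    (ha : Continuous fun p : Y × ℝ => a p.1 p.2) {C : ℝ} (hC : ∀ y t, ‖a y t‖ ≤ C) :
    MeasurableSet {p : Y × ℝ | p.2 ∈ AA (a p.1)} := by
  unfold AA
  exact measurableSet_tendsto atTop fun n =>
    ((LT_cont ha hC (ε := 1 / ((n : ℝ) + 1)) (by positivity)).norm).measurable

theorem AA_meas {a : ℝ → ℂ} (ha : Continuous a) {C : ℝ} (hC : ∀ t, ‖a t‖ ≤ C) :
    MeasurableSet (AA a) := by
  have h := AA_joint (Y := ℝ) (a := fun _ t => a t) (by fun_prop) (fun _ => hC)
  have h2 : Measurable fun E : ℝ => ((0 : ℝ), E) := by fun_prop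
  exact h2 h

/-- disjointness -/
theorem AA_disj {a b : ℝ → ℂ} (ha : Continuous a) (hb : Continuous b) {C : ℝ}
    (hCa : ∀ t, ‖a t‖ ≤ C) (hCb : ∀ t, ‖b t‖ ≤ C) {c : ℂ} (hc : c ≠ 0)
    (h : ∀ t, b t = a t - c * ∫ s in (0 : ℝ)..t, b s * a (t - s)) : Disjoint (AA a) (AA b) := by
  rw [Set.disjoint_left]
  intro E h1 h2
  have h1' : Tendsto (fun n : ℕ => ‖LT a E (1 / ((n : ℝ) + 1))‖) atTop atTop := h1
  have h2' : Tendsto (fun n : ℕ => ‖LT b E (1 / ((n : ℝ) + 1))‖) atTop atTop := h2
  have h3 : Tendsto (fun n : ℕ => (LT a E (1 / ((n : ℝ) + 1)))⁻¹) atTop (𝓝 0) := by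
    rw [tendsto_zero_iff_norm_tendsto_zero]
    simp only [norm_inv]
    exact h1'.inv_tendsto_atTop
  have h4 : Tendsto (fun n : ℕ => (LT b E (1 / ((n : ℝ) + 1)))⁻¹) atTop (𝓝 0) := by
    rw [tendsto_zero_iff_norm_tendsto_zero]
    simp only [norm_inv]
    exact h2'.inv_tendsto_atTop
  have h5 := h4.sub h3
  rw [sub_zero] at h5
  have h6 : ∀ᶠ n : ℕ in atTop, (LT b E (1 / ((n : ℝ) + 1)))⁻¹ - (LT a E (1 / ((n : ℝ) + 1)))⁻¹ = c := by
    filter_upwards [h1'.eventually_gt_atTop 0, h2'.eventually_gt_atTop 0] with n p1 p2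
    have q1 : LT a E (1 / ((n : ℝ) + 1)) ≠ 0 := norm_pos_iff.1 p1
    have q2 : LT b E (1 / ((n : ℝ) + 1)) ≠ 0 := norm_pos_iff.1 p2
    have h7 := LT_volterra ha hb hCa hCb h E (ε := 1 / ((n : ℝ) + 1)) (by positivity)
    rw [inv_sub_inv q2 q1, div_eq_iff (mul_ne_zero q2 q1)]
    linear_combination -h7
  have h7 : Tendsto (fun n : ℕ => (LT b E (1 / ((n : ℝ) + 1)))⁻¹ - (LT a E (1 / ((n : ℝ) + 1)))⁻¹)
      atTop (𝓝 c) := tendsto_const_nhds.congr' (h6.mono fun n hn => hn.symm)
  exact hc (tendsto_nhds_unique h7 h5)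

/-- the Laplace transform of a Fourier transform -/
theorem LT_re {m : Measure ℝ} [IsFiniteMeasure m] {a : ℝ → ℂ}
    (ha : ∀ t : ℝ, a t = ∫ E : ℝ, Complex.exp (-(Complex.I * t * E)) ∂m) (E : ℝ) {ε : ℝ}
    (hε : 0 < ε) : (LT a E ε).re = ∫ E' : ℝ, ε / (ε ^ 2 + (E - E') ^ 2) ∂m := by
  have h1 : LT a E ε = ∫ t in Set.Ioi (0 : ℝ), ∫ E' : ℝ, kr E ε t * ex t E' ∂m := by
    unfold LT
    refine integral_congr_ae (Eventually.of_forall fun t => ?_)
    simp only [ha t]
    rw [← integral_const_mul]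
    rfl
  have hint : Integrable (Function.uncurry fun (t : ℝ) (E' : ℝ) => kr E ε t * ex t E')
      ((volume.restrict (Set.Ioi (0 : ℝ))).prod m) := by
    have h2 : Integrable (fun p : ℝ × ℝ => Real.exp (-ε * p.1) * 1)
        ((volume.restrict (Set.Ioi (0 : ℝ))).prod m) :=
      (exp_intble hε).mul_prod (integrable_const (1 : ℝ))
    refine h2.mono' ?_ (Eventually.of_forall fun p => ?_)
    · refine Continuous.aestronglyMeasurable ?_
      unfold Function.uncurry kr ex
      fun_prop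
    · simp only [Function.uncurry]
      rw [norm_mul, norm_kr, norm_ex]
  rw [h1, integral_integral_swap hint]
  have h3 : ∀ E' : ℝ, ∫ t in Set.Ioi (0 : ℝ), kr E ε t * ex t E' =
      ((ε : ℂ) - Complex.I * (E - E'))⁻¹ := by
    intro E'
    have h4 : ∀ t : ℝ, kr E ε t * ex t E' =
        Complex.exp ((Complex.I * (E - E') - ε) * t) := by
      intro t
      unfold kr ex
      rw [← Complex.exp_add]
      congr 1
      ring
    simp_rw [h4]
    rw [integral_exp_mul_complex_Ioi (by simp [hε])]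
    have h5 : (Complex.I * ((E : ℂ) - E') - ε) ≠ 0 := by
      intro h0
      have := congrArg Complex.re h0
      simp at this
      exact hε.ne' this
    have h6 : ((ε : ℂ) - Complex.I * (E - E')) ≠ 0 := by
      intro h0
      apply h5
      linear_combination -h0
    simp only [Complex.ofReal_zero, mul_zero, Complex.exp_zero]
    field_simp
    ring
  simp_rw [h3]
  have h7 : Integrable (fun E' : ℝ => ((ε : ℂ) - Complex.I * (E - E'))⁻¹) m := by
    refine Integrable.of_bound (C := ε⁻¹) ?_ (Eventually.of_forall fun E' => ?_)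
    · exact (by fun_prop : Measurable fun E' : ℝ => ((ε : ℂ) - Complex.I * (E - E'))⁻¹).aestronglyMeasurable
    · rw [norm_inv]
      have : ε ≤ ‖(ε : ℂ) - Complex.I * (E - E')‖ := by
        refine le_trans ?_ (Complex.re_le_norm _)
        simp
      exact inv_anti₀ hε this
  have h8 := integral_re h7
  rw [RCLike.re_to_complex] at h8
  rw [← h8]
  refine integral_congr_ae (Eventually.of_forall fun E' => ?_)
  simp only [RCLike.re_to_complex]
  rw [Complex.inv_re, Complex.normSq_apply]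
  simp
  ring_nf

/-- the singular part is carried by the blow up set -/
theorem AA_ac {m : Measure ℝ} [IsFiniteMeasure m] {a : ℝ → ℂ}
    (ha : ∀ t : ℝ, a t = ∫ E : ℝ, Complex.exp (-(Complex.I * t * E)) ∂m) :
    m.restrict (AA a)ᶜ ≪ volume := by
  refine Measure.AbsolutelyContinuous.mk fun s hs hs0 => ?_
  rw [Measure.restrict_apply hs]
  have h1 : ∀ᵐ x ∂m, x ∈ s → (volume : Measure ℝ).rnDeriv m x = 0 := by
    rw [← ae_restrict_iff' hs]
    have h2 : ∫⁻ x in s, (volume : Measure ℝ).rnDeriv m x ∂m = 0 :=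
      le_antisymm ((Measure.setLIntegral_rnDeriv_le s).trans hs0.le) bot_le
    exact (lintegral_eq_zero_iff (Measure.measurable_rnDeriv _ _)).1 h2
  have h2 := Besicovitch.ae_tendsto_rnDeriv (volume : Measure ℝ) m
  have h3 : ∀ᵐ x ∂m, x ∈ s → x ∈ AA a := by
    filter_upwards [h1, h2] with x e1 e2 hx
    rw [e1 hx] at e2
    have hτ0 : Tendsto (fun n : ℕ => (1 : ℝ) / ((n : ℝ) + 1)) atTop (𝓝[>] 0) :=
      tendsto_nhdsWithin_iff.2 ⟨tendsto_one_div_add_atTop_nhds_zero_nat,
        Eventually.of_forall fun n => by simp only [Set.mem_Ioi]; positivity⟩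
    have e3 := e2.comp hτ0
    have e4 := tendsto_inv_iff.2 e3
    rw [ENNReal.inv_zero] at e4
    refine ENNReal.tendsto_ofReal_nhds_top.1 (tendsto_nhds_top_mono e4 ?_)
    refine Eventually.of_forall fun n => ?_
    simp only [Function.comp_apply]
    set ε : ℝ := 1 / ((n : ℝ) + 1) with hεdef
    have hε : 0 < ε := by positivity
    have e5 : (volume : Measure ℝ) (Metric.closedBall x ε) = ENNReal.ofReal (2 * ε) :=
      Real.volume_closedBall x ε
    have hv : ENNReal.ofReal (2 * ε) ≠ 0 := by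
      rw [Ne, ENNReal.ofReal_eq_zero]; push Not; linarith
    rw [e5, ENNReal.inv_div (Or.inr ENNReal.ofReal_ne_top) (Or.inr hv)]
    have e6 : m (Metric.closedBall x ε) = ENNReal.ofReal (m.real (Metric.closedBall x ε)) := by
      rw [measureReal_def, ENNReal.ofReal_toReal (measure_ne_top _ _)]
    rw [e6, ← ENNReal.ofReal_div_of_pos (by linarith)]
    refine ENNReal.ofReal_le_ofReal (le_trans ?_ (Complex.re_le_norm _))
    rw [LT_re ha x hε]
    have hb : ∀ E' : ℝ, 0 ≤ ε / (ε ^ 2 + (x - E') ^ 2) := fun E' => by positivity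
    have hi : Integrable (fun E' : ℝ => ε / (ε ^ 2 + (x - E') ^ 2)) m := by
      refine Integrable.of_bound (C := ε⁻¹) ?_ (Eventually.of_forall fun E' => ?_)
      · exact (by fun_prop : Measurable fun E' : ℝ => ε / (ε ^ 2 + (x - E') ^ 2)).aestronglyMeasurable
      · rw [Real.norm_of_nonneg (hb E'), div_le_iff₀ (by positivity), inv_mul_eq_div,
          le_div_iff₀ hε]
        nlinarith [sq_nonneg (x - E')]
    refine le_trans ?_ (setIntegral_le_integral (s := Metric.closedBall x ε) hi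
      (Eventually.of_forall hb))
    have e7 : ∫ _ in Metric.closedBall x ε, (1 / (2 * ε) : ℝ) ∂m =
        m.real (Metric.closedBall x ε) / (2 * ε) := by
      rw [setIntegral_const, smul_eq_mul]
      ring
    rw [← e7]
    refine setIntegral_mono_on (integrable_const _).integrableOn hi.integrableOn
      Metric.isClosed_closedBall.measurableSet fun E' hE' => ?_
    rw [Metric.mem_closedBall, Real.dist_eq] at hE'
    have e8 : (x - E') ^ 2 ≤ ε ^ 2 := by
      rw [← sq_abs (x - E'), abs_sub_comm]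
      exact pow_le_pow_left₀ (abs_nonneg _) hE' 2
    rw [div_le_div_iff₀ (by positivity) (by positivity)]
    nlinarith
  rw [← nonpos_iff_eq_zero]
  refine (measure_mono ?_).trans (ae_iff.1 h3).le
  rintro x ⟨hx1, hx2⟩
  exact fun h => hx2 (h hx1)

end Pool.Agent.K7.H83.SI
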