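import Pool.Agent.Helper345.SM.spec
import Pool.Agent.H5R2.NB.ANTI

/-! # Spectral measures of one-parameter unitary groups: existence -/

set_option autoImplicit false

open MeasureTheory Filter Topology
open scoped BigOperators ENNReal NNReal InnerProductSpace ComplexConjugate

namespace Pool.Agent.K7.H83.SI

open Pool.Agent.H5R2.NB ANTI

variable {X : Type} [NormedAddCommGroup X] [InnerProductSpace ℂ X]

/-- `m` is the spectral measure of `u` -/
def IsSp (W : UG X) (u : X) (m : Measure ℝ) : Prop :=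
  IsFiniteMeasure m ∧ ∀ t : ℝ, ⟪u, W.U t u⟫_ℂ = ∫ E : ℝ, Complex.exp (-(Complex.I * t * E)) ∂m

theorem exp_charFun (m : Measure ℝ) (t : ℝ) :
    ∫ E : ℝ, Complex.exp (-(Complex.I * t * E)) ∂m = charFun m (-t) := by
  rw [charFun_apply_real]
  refine integral_congr_ae (Eventually.of_forall fun E => ?_)
  simp only []
  congr 1
  push_cast
  ring

theorem exp_ext {m m' : Measure ℝ} [IsFiniteMeasure m] [IsFiniteMeasure m']
    (h : ∀ t : ℝ, ∫ E : ℝ, Complex.exp (-(Complex.I * t * E)) ∂m =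
      ∫ E : ℝ, Complex.exp (-(Complex.I * t * E)) ∂m') : m = m' := by
  apply Measure.ext_of_charFun
  funext t
  have h1 := h (-t)
  rwa [exp_charFun, exp_charFun, neg_neg] at h1

theorem IsSp.unique {W : UG X} {u : X} {m m' : Measure ℝ} (h : IsSp W u m) (h' : IsSp W u m') :
    m = m' := by
  have := h.1
  have := h'.1
  exact exp_ext fun t => (h.2 t).symm.trans (h'.2 t)

/-- the unitary map at time `τ` -/
noncomputable def un (W : UG X) (τ : ℝ) : X ≃ₗᵢ[ℂ] X where
  toFun := W.U τ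
  invFun := W.U (-τ)
  map_add' x y := map_add _ x y
  map_smul' c x := map_smul _ c x
  left_inv x := by rw [← W.add', neg_add_cancel, W.zero']
  right_inv x := by rw [← W.add', add_neg_cancel, W.zero']
  norm_map' x := W.norm' τ x

theorem un_apply (W : UG X) (τ : ℝ) (x : X) : un W τ x = W.U τ x := rfl

theorem un_symm_apply (W : UG X) (τ : ℝ) (x : X) : (un W τ).symm x = W.U (-τ) x := rfl

theorem un_zpow (W : UG X) (τ : ℝ) (k : ℤ) (x : X) : ((un W τ) ^ k) x = W.U (k * τ) x := by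
  induction k using Int.induction_on generalizing x with
  | zero => simp [W.zero']
  | succ k ih =>
    rw [zpow_add_one, LinearIsometryEquiv.coe_mul, Function.comp_apply, ih, un_apply, ← W.add']
    congr 1
    push_cast
    ring
  | pred k ih =>
    rw [zpow_sub_one, LinearIsometryEquiv.coe_mul, Function.comp_apply, ih]
    have : ((un W τ)⁻¹ : X ≃ₗᵢ[ℂ] X) x = W.U (-τ) x := rfl
    rw [this, ← W.add']
    congr 1
    push_cast
    ring

abbrev TT : Type := AddCircle (1 : ℝ)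

instance : Fact ((0 : ℝ) < 1) := ⟨one_pos⟩

/-- the representative in `[-1/2, 1/2)` -/
noncomputable def rp (z : TT) : ℝ := (AddCircle.equivIco (1 : ℝ) (-(1 / 2)) z : ℝ)

theorem rp_meas : Measurable rp :=
  measurable_subtype_coe.comp (AddCircle.measurableEquivIco (1 : ℝ) (-(1 / 2))).measurable

theorem rp_coe (z : TT) : ((rp z : ℝ) : TT) = z :=
  (AddCircle.equivIco (1 : ℝ) (-(1 / 2))).symm_apply_apply z

theorem rp_abs (z : TT) : |rp z| ≤ 1 / 2 := by
  have h := (AddCircle.equivIco (1 : ℝ) (-(1 / 2)) z).2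
  rw [Set.mem_Ico] at h
  rw [abs_le]
  exact ⟨h.1, by have := h.2; unfold rp; linarith⟩

/-- the energy -/
noncomputable def gE (τ : ℝ) (z : TT) : ℝ := -(2 * Real.pi / τ) * rp z

theorem gE_meas (τ : ℝ) : Measurable (gE τ) := rp_meas.const_mul _

theorem gE_fourier {τ : ℝ} (hτ : 0 < τ) (k : ℤ) (z : TT) :
    Complex.exp (-(Complex.I * ((k * τ : ℝ) : ℂ) * (gE τ z : ℝ))) = fourier k z := by
  conv_rhs => rw [← rp_coe z]
  rw [fourier_coe_apply]
  congr 1
  unfold gE
  have : (τ : ℂ) ≠ 0 := by exact_mod_cast hτ.ne'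
  push_cast
  field_simp

theorem gE_abs {τ : ℝ} (hτ : 0 < τ) (z : TT) : |τ * gE τ z| ≤ Real.pi := by
  have h1 : τ * gE τ z = -(2 * Real.pi) * rp z := by
    unfold gE
    field_simp
  rw [h1, abs_mul, abs_neg, abs_of_pos Real.two_pi_pos]
  nlinarith [rp_abs z, Real.pi_pos]

theorem norm_exp_sub (a : ℝ) : ‖Complex.exp (-(Complex.I * a)) - 1‖ ^ 2 = 2 - 2 * Real.cos a := by
  rw [← Complex.normSq_eq_norm_sq, Complex.normSq_apply]
  have h1 : Complex.exp (-(Complex.I * a)) = Real.cos a - Real.sin a * Complex.I := by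
    have : -(Complex.I * (a : ℂ)) = ((-a : ℝ) : ℂ) * Complex.I := by push_cast; ring
    rw [this, Complex.exp_mul_I, ← Complex.ofReal_cos, ← Complex.ofReal_sin, Real.cos_neg,
      Real.sin_neg]
    push_cast
    ring
  rw [h1]
  simp only [Complex.sub_re, Complex.ofReal_re, Complex.mul_re, Complex.I_re, mul_zero,
    Complex.ofReal_im, Complex.I_im, mul_one, sub_self, sub_zero, Complex.one_re, Complex.sub_im,
    Complex.mul_im, zero_sub, Complex.one_im, add_zero]
  nlinarith [Real.sin_sq_add_cos_sq a]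

theorem norm_exp_mono {a b : ℝ} (h : |a| ≤ |b|) (hb : |b| ≤ Real.pi) :
    ‖Complex.exp (-(Complex.I * a)) - 1‖ ^ 2 ≤ ‖Complex.exp (-(Complex.I * b)) - 1‖ ^ 2 := by
  rw [norm_exp_sub, norm_exp_sub, ← Real.cos_abs a, ← Real.cos_abs b]
  have := Real.cos_le_cos_of_nonneg_of_le_pi (abs_nonneg a) hb h
  linarith

theorem norm_exp_I (a : ℂ) (ha : a.im = 0) : ‖Complex.exp (-(Complex.I * a))‖ = 1 := by
  rw [Complex.norm_exp]
  simp [ha]

theorem norm_exp_IE (t E : ℝ) : ‖Complex.exp (-(Complex.I * t * E))‖ = 1 := by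
  rw [Complex.norm_exp]
  simp

theorem exp_int (m : Measure ℝ) [IsFiniteMeasure m] (t : ℝ) :
    Integrable (fun E : ℝ => Complex.exp (-(Complex.I * t * E))) m :=
  Integrable.of_bound (by fun_prop) 1 (Eventually.of_forall fun E => (norm_exp_IE t E).le)

theorem a_cont (W : UG X) (u : X) : Continuous fun t : ℝ => ⟪u, W.U t u⟫_ℂ :=
  continuous_const.inner (W.cont' u)

variable [CompleteSpace X]

/-- approximating measures -/
theorem exists_approx (W : UG X) {u : X} (hu : ‖u‖ = 1) {τ : ℝ} (hτ : 0 < τ) :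
    ∃ m : Measure ℝ, IsProbabilityMeasure m ∧
      (∀ k : ℤ, ∫ E : ℝ, Complex.exp (-(Complex.I * ((k * τ : ℝ) : ℂ) * E)) ∂m =
        ⟪u, W.U (k * τ) u⟫_ℂ) ∧ ∀ᵐ (E : ℝ) ∂m, |τ * E| ≤ Real.pi := by
  obtain ⟨σ, hσ, h⟩ := SM345.SPA.herglotz (un W τ) u
  have := hσ
  have hk : ∀ k : ℤ, ∫ E : ℝ, Complex.exp (-(Complex.I * ((k * τ : ℝ) : ℂ) * E)) ∂(σ.map (gE τ)) =
      ⟪u, W.U (k * τ) u⟫_ℂ := by
    intro k
    rw [integral_map (gE_meas τ).aemeasurable (by fun_prop), ← un_zpow, ← h k]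
    exact integral_congr_ae (Eventually.of_forall fun z => gE_fourier hτ k z)
  refine ⟨σ.map (gE τ), ?_, hk, ?_⟩
  · have h0 := hk 0
    simp only [Int.cast_zero, zero_mul, Complex.ofReal_zero, mul_zero, neg_zero, Complex.exp_zero,
      W.zero'] at h0
    rw [integral_const, inner_self_eq_norm_sq_to_K, hu] at h0
    have : IsFiniteMeasure (σ.map (gE τ)) := Measure.isFiniteMeasure_map σ _
    have h1 : (σ.map (gE τ)).real Set.univ = 1 := by
      have := congrArg Complex.re h0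
      simpa using this
    refine ⟨?_⟩
    rw [measureReal_def] at h1
    rw [← ENNReal.ofReal_toReal (measure_ne_top (Measure.map (gE τ) σ) Set.univ), h1,
      ENNReal.ofReal_one]
  · rw [ae_map_iff (gE_meas τ).aemeasurable]
    · exact Eventually.of_forall fun z => gE_abs hτ z
    · exact measurableSet_le (by fun_prop) measurable_const

theorem approx_est (W : UG X) {u : X} (hu : ‖u‖ = 1) {τ : ℝ} (hτ : 0 < τ) {m : Measure ℝ}
    [IsProbabilityMeasure m]
    (hk : ∀ k : ℤ, ∫ E : ℝ, Complex.exp (-(Complex.I * ((k * τ : ℝ) : ℂ) * E)) ∂m =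
        ⟪u, W.U (k * τ) u⟫_ℂ) (hpi : ∀ᵐ (E : ℝ) ∂m, |τ * E| ≤ Real.pi) (t : ℝ) {δ : ℝ} (hδ : 0 < δ) :
    ‖∫ E : ℝ, Complex.exp (-(Complex.I * t * E)) ∂m - ⟪u, W.U (⌊t / τ⌋ * τ) u⟫_ℂ‖ ≤
      δ / 2 + (1 / (2 * δ)) * (2 - 2 * (⟪u, W.U τ u⟫_ℂ).re) := by
  set k := ⌊t / τ⌋ with hkdef
  set θ := t - k * τ with hθ
  have h0 : 0 ≤ θ := by
    have := Int.floor_le (t / τ)
    rw [le_div_iff₀ hτ] at this
    linarith
  have h1 : θ ≤ τ := by
    have := Int.lt_floor_add_one (t / τ)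
    rw [div_lt_iff₀ hτ] at this
    linarith
  rw [← hk k, ← integral_sub (exp_int m t) (exp_int m (k * τ))]
  have hint : Integrable (fun E : ℝ => ‖Complex.exp (-(Complex.I * τ * E)) - 1‖ ^ 2) m := by
    refine Integrable.of_bound (by fun_prop) 4 (Eventually.of_forall fun E => ?_)
    have h2 : ‖Complex.exp (-(Complex.I * τ * E)) - 1‖ ≤ 2 := by
      refine (norm_sub_le _ _).trans ?_
      rw [norm_exp_IE, norm_one]
      norm_num
    rw [Real.norm_of_nonneg (by positivity)]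
    nlinarith [norm_nonneg (Complex.exp (-(Complex.I * τ * E)) - 1)]
  have hpt : ∀ᵐ (E : ℝ) ∂m, ‖Complex.exp (-(Complex.I * t * E)) -
      Complex.exp (-(Complex.I * ((k * τ : ℝ) : ℂ) * E))‖ ≤
        δ / 2 + (1 / (2 * δ)) * ‖Complex.exp (-(Complex.I * τ * E)) - 1‖ ^ 2 := by
    filter_upwards [hpi] with E hE
    have e1 : Complex.exp (-(Complex.I * t * E)) - Complex.exp (-(Complex.I * ((k * τ : ℝ) : ℂ) * E)) =
        Complex.exp (-(Complex.I * ((k * τ : ℝ) : ℂ) * E)) *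
          (Complex.exp (-(Complex.I * ((θ * E : ℝ) : ℂ))) - 1) := by
      rw [mul_sub, mul_one, ← Complex.exp_add]
      congr 2
      rw [hθ]
      push_cast
      ring
    have e2 : ‖Complex.exp (-(Complex.I * ((k * τ : ℝ) : ℂ) * E))‖ = 1 := norm_exp_IE _ _
    rw [e1, norm_mul, e2, one_mul]
    have h3 : ‖Complex.exp (-(Complex.I * ((θ * E : ℝ) : ℂ))) - 1‖ ^ 2 ≤
        ‖Complex.exp (-(Complex.I * τ * E)) - 1‖ ^ 2 := by
      have e3 : -(Complex.I * τ * E) = -(Complex.I * ((τ * E : ℝ) : ℂ)) := by push_cast; ring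
      rw [e3]
      refine norm_exp_mono ?_ hE
      rw [abs_mul, abs_mul, abs_of_nonneg h0, abs_of_pos hτ]
      exact mul_le_mul_of_nonneg_right h1 (abs_nonneg E)
    set x := ‖Complex.exp (-(Complex.I * ((θ * E : ℝ) : ℂ))) - 1‖ with hx
    have h4 : x ≤ δ / 2 + (1 / (2 * δ)) * x ^ 2 := by
      have : 0 ≤ (x - δ) ^ 2 / (2 * δ) := by positivity
      have e4 : (x - δ) ^ 2 / (2 * δ) = δ / 2 + (1 / (2 * δ)) * x ^ 2 - x := by
        field_simp
        ring
      linarith
    refine h4.trans ?_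
    gcongr
  refine (norm_integral_le_integral_norm _).trans ?_
  have hR : Integrable (fun E : ℝ => δ / 2 + (1 / (2 * δ)) *
      ‖Complex.exp (-(Complex.I * τ * E)) - 1‖ ^ 2) m := (integrable_const _).add (hint.const_mul _)
  refine (integral_mono_ae (((exp_int m t).sub (exp_int m (k * τ))).norm) hR hpt).trans ?_
  rw [integral_add (integrable_const _) (hint.const_mul _), integral_const, integral_const_mul]
  have h5 : ∫ E : ℝ, ‖Complex.exp (-(Complex.I * τ * E)) - 1‖ ^ 2 ∂m =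
      2 - 2 * (⟪u, W.U τ u⟫_ℂ).re := by
    have h6 : ∀ E : ℝ, ‖Complex.exp (-(Complex.I * τ * E)) - 1‖ ^ 2 =
        2 - 2 * (Complex.exp (-(Complex.I * τ * E))).re := by
      intro E
      have e3 : -(Complex.I * τ * E) = -(Complex.I * ((τ * E : ℝ) : ℂ)) := by push_cast; ring
      rw [e3, norm_exp_sub]
      congr 2
      have : -(Complex.I * ((τ * E : ℝ) : ℂ)) = ((-(τ * E) : ℝ) : ℂ) * Complex.I := by
        push_cast; ring
      rw [this, Complex.exp_ofReal_mul_I_re, Real.cos_neg]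
    simp_rw [h6]
    have h7 : Integrable (fun E : ℝ => (Complex.exp (-(Complex.I * τ * E))).re) m :=
      (exp_int m τ).re
    rw [integral_sub (integrable_const _) (h7.const_mul 2), integral_const, integral_const_mul]
    have h8 : ∫ E : ℝ, (Complex.exp (-(Complex.I * τ * E))).re ∂m = (⟪u, W.U τ u⟫_ℂ).re := by
      have h9 := hk 1
      simp only [Int.cast_one, one_mul] at h9
      rw [← h9]
      exact integral_re (exp_int m τ)
    rw [h8]
    simp
  rw [h5]
  simp

/-- **Bochner's theorem for unitary groups**, unit vectors -/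
theorem exists_sp_unit (W : UG X) {u : X} (hu : ‖u‖ = 1) : ∃ m : Measure ℝ, IsSp W u m := by
  choose m hm hk hpi using fun n : ℕ => exists_approx W hu (τ := 1 / ((n : ℝ) + 1)) (by positivity)
  have := hm
  have hc := a_cont W u
  have hτ0 : Tendsto (fun n : ℕ => (1 : ℝ) / ((n : ℝ) + 1)) atTop (𝓝 0) :=
    tendsto_one_div_add_atTop_nhds_zero_nat
  have hlim : ∀ t : ℝ, Tendsto (fun n => ∫ E : ℝ, Complex.exp (-(Complex.I * t * E)) ∂(m n)) atTop
      (𝓝 (⟪u, W.U t u⟫_ℂ)) := by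
    intro t
    have h1 : Tendsto (fun n : ℕ => (⌊t / (1 / ((n : ℝ) + 1))⌋ : ℝ) * (1 / ((n : ℝ) + 1))) atTop
        (𝓝 t) := by
      rw [Metric.tendsto_atTop]
      intro ε hε
      obtain ⟨N, hN⟩ := (Metric.tendsto_atTop.1 hτ0) ε hε
      refine ⟨N, fun n hn => ?_⟩
      have h2 := hN n hn
      rw [Real.dist_eq, sub_zero, abs_of_pos (by positivity)] at h2
      set τ : ℝ := 1 / ((n : ℝ) + 1) with hτ
      have hτp : 0 < τ := by positivity
      have h3 := Int.floor_le (t / τ)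
      have h4 := Int.lt_floor_add_one (t / τ)
      rw [le_div_iff₀ hτp] at h3
      rw [div_lt_iff₀ hτp] at h4
      rw [Real.dist_eq, abs_lt]
      constructor <;> linarith
    have h2 : Tendsto (fun n : ℕ => ⟪u, W.U (⌊t / (1 / ((n : ℝ) + 1))⌋ * (1 / ((n : ℝ) + 1))) u⟫_ℂ)
        atTop (𝓝 (⟪u, W.U t u⟫_ℂ)) := (hc.tendsto t).comp h1
    have h3 : Tendsto (fun n : ℕ => 2 - 2 * (⟪u, W.U (1 / ((n : ℝ) + 1)) u⟫_ℂ).re) atTop (𝓝 0) := by
      have h4 := (Complex.continuous_re.tendsto _).comp ((hc.tendsto 0).comp hτ0)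
      have h5 := (h4.const_mul 2).const_sub 2
      have e : (2 : ℝ) - 2 * Complex.re (⟪u, W.U 0 u⟫_ℂ) = 0 := by
        rw [W.zero', inner_self_eq_norm_sq_to_K, hu]
        simp
      rw [e] at h5
      exact h5
    rw [Metric.tendsto_atTop]
    intro ε hε
    obtain ⟨N1, hN1⟩ := (Metric.tendsto_atTop.1 h2) (ε / 3) (by positivity)
    obtain ⟨N2, hN2⟩ := (Metric.tendsto_atTop.1 h3) (ε ^ 2 / 9) (by positivity)
    refine ⟨max N1 N2, fun n hn => ?_⟩
    have h5 := hN1 n (le_of_max_le_left hn)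
    have h6 := hN2 n (le_of_max_le_right hn)
    rw [Real.dist_eq, sub_zero] at h6
    have h7 := approx_est W hu (τ := 1 / ((n : ℝ) + 1)) (by positivity) (hk n) (hpi n) t
      (δ := ε / 3) (by positivity)
    refine (dist_triangle _ (⟪u, W.U (⌊t / (1 / ((n : ℝ) + 1))⌋ * (1 / ((n : ℝ) + 1))) u⟫_ℂ)
      _).trans_lt ?_
    have h8 := (abs_lt.1 h6).2
    rw [← dist_eq_norm] at h7
    have h9 : (1 / (2 * (ε / 3))) * (2 - 2 * (⟪u, W.U (1 / ((n : ℝ) + 1)) u⟫_ℂ).re) ≤
        (1 / (2 * (ε / 3))) * (ε ^ 2 / 9) := by gcongr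
    have h10 : (1 / (2 * (ε / 3))) * (ε ^ 2 / 9) = ε / 6 := by
      field_simp
      norm_num
    linarith
  have hchar : ∀ s : ℝ, Tendsto (fun n => charFun (m n) s) atTop (𝓝 (⟪u, W.U (-s) u⟫_ℂ)) := by
    intro s
    have := hlim (-s)
    simpa only [exp_charFun, neg_neg] using this
  have htight : IsTightMeasureSet (Set.range m) :=
    isTightMeasureSet_of_tendsto_charFun (f := fun s : ℝ => ⟪u, W.U (-s) u⟫_ℂ)
      (hc.comp continuous_neg).continuousAt hchar
  let P : ℕ → ProbabilityMeasure ℝ := fun n => ⟨m n, hm n⟩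
  have hcpt : IsCompact (closure (Set.range P)) := by
    apply isCompact_closure_of_isTightMeasureSet
    convert! htight using 1
    ext x
    simp [P]
  obtain ⟨μ, -, hμ⟩ := hcpt.ultrafilter_le_nhds ((hyperfilter ℕ).map P) (by
    rw [le_principal_iff]
    exact Filter.mem_map.2 (Eventually.of_forall fun n => subset_closure ⟨n, rfl⟩))
  refine ⟨(μ : Measure ℝ), inferInstance, fun t => ?_⟩
  have ht : Tendsto P (hyperfilter ℕ : Filter ℕ) (𝓝 μ) := hμ
  rw [ProbabilityMeasure.tendsto_iff_forall_integral_rclike_tendsto ℂ] at ht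
  let f : BoundedContinuousFunction ℝ ℂ := BoundedContinuousFunction.ofNormedAddCommGroup
    (fun E : ℝ => Complex.exp (-(Complex.I * t * E))) (by fun_prop) 1
      (fun E => (norm_exp_IE t E).le)
  have h1 := ht f
  have h2 := (hlim t).mono_left (Nat.hyperfilter_le_atTop)
  exact tendsto_nhds_unique h2 h1

theorem exists_sp (W : UG X) (u : X) : ∃ m : Measure ℝ, IsSp W u m := by
  by_cases hu : u = 0
  · refine ⟨0, inferInstance, fun t => ?_⟩
    rw [hu, inner_zero_left, integral_zero_measure]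
  · have hn : 0 < ‖u‖ := norm_pos_iff.2 hu
    obtain ⟨m, hm, h⟩ := exists_sp_unit W (u := ((‖u‖⁻¹ : ℝ) : ℂ) • u) (by
      rw [norm_smul, Complex.norm_real, norm_inv, norm_norm, inv_mul_cancel₀ hn.ne'])
    refine ⟨ENNReal.ofReal (‖u‖ ^ 2) • m, ?_, fun t => ?_⟩
    · exact Measure.smul_finite _ ENNReal.ofReal_ne_top
    · rw [integral_smul_measure, ← h t, map_smul, inner_smul_left, inner_smul_right,
        ENNReal.toReal_ofReal (by positivity), Complex.conj_ofReal, Complex.real_smul]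
      have : (‖u‖ : ℂ) ≠ 0 := by exact_mod_cast hn.ne'
      push_cast
      field_simp

end Pool.Agent.K7.H83.SI
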