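import Pool.Agent.K7.H83.SI.Sp

/-! # Spectral measures of one-parameter unitary groups: algebra -/

set_option autoImplicit false

open MeasureTheory Filter Topology
open scoped BigOperators ENNReal NNReal InnerProductSpace ComplexConjugate

namespace Pool.Agent.K7.H83.SI

open Pool.Agent.H5R2.NB ANTI

variable {X : Type} [NormedAddCommGroup X] [InnerProductSpace ℂ X] [CompleteSpace X]

/-- the spectral measure of `u` -/
noncomputable def sm (W : UG X) (u : X) : Measure ℝ := Classical.choose (exists_sp W u)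

theorem sm_spec (W : UG X) (u : X) : IsSp W u (sm W u) := Classical.choose_spec (exists_sp W u)

instance sm_fin (W : UG X) (u : X) : IsFiniteMeasure (sm W u) := (sm_spec W u).1

theorem sm_inner (W : UG X) (u : X) (t : ℝ) :
    ⟪u, W.U t u⟫_ℂ = ∫ E : ℝ, Complex.exp (-(Complex.I * t * E)) ∂(sm W u) := (sm_spec W u).2 t

theorem sm_eq {W : UG X} {u : X} {m : Measure ℝ} (h : IsSp W u m) : sm W u = m :=
  (sm_spec W u).unique h

theorem sm_real_univ (W : UG X) (u : X) : (sm W u).real Set.univ = ‖u‖ ^ 2 := by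
  have h := sm_inner W u 0
  simp only [Complex.ofReal_zero, mul_zero, zero_mul, neg_zero, Complex.exp_zero, W.zero'] at h
  rw [integral_const, inner_self_eq_norm_sq_to_K] at h
  have h2 := congrArg Complex.re h
  have h3 : ((‖u‖ : ℂ) ^ 2).re = ‖u‖ ^ 2 := by
    rw [← Complex.ofReal_pow, Complex.ofReal_re]
  have h4 : (((sm W u).real Set.univ) • (1 : ℂ)).re = (sm W u).real Set.univ := by simp
  rw [← h4, ← h2]
  exact h3

theorem sm_univ (W : UG X) (u : X) : sm W u Set.univ = ENNReal.ofReal (‖u‖ ^ 2) := by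
  rw [← sm_real_univ W u, measureReal_def, ENNReal.ofReal_toReal (measure_ne_top _ _)]

theorem eq_zero_of_sm {W : UG X} {u : X} (h : sm W u Set.univ = 0) : u = 0 := by
  rw [sm_univ, ENNReal.ofReal_eq_zero] at h
  have : ‖u‖ = 0 := by nlinarith [norm_nonneg u]
  exact norm_eq_zero.1 this

theorem sm_zero (W : UG X) : sm W 0 = 0 := by
  rw [← Measure.measure_univ_eq_zero, sm_univ]
  simp

/-- comparison through the correlation functions -/
theorem sm_ext_iff {W W' : UG X} {u u' : X} (h : ∀ t, ⟪u, W.U t u⟫_ℂ = ⟪u', W'.U t u'⟫_ℂ) :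
    sm W u = sm W' u' :=
  sm_eq ⟨inferInstance, fun t => by rw [h t, sm_inner]⟩

theorem sm_smul (W : UG X) (c : ℂ) (u : X) : sm W (c • u) = ENNReal.ofReal (‖c‖ ^ 2) • sm W u := by
  have hf : IsFiniteMeasure (ENNReal.ofReal (‖c‖ ^ 2) • sm W u) :=
    Measure.smul_finite _ ENNReal.ofReal_ne_top
  refine sm_eq ⟨hf, fun t => ?_⟩
  rw [integral_smul_measure, ← sm_inner, map_smul, inner_smul_left, inner_smul_right,
    ENNReal.toReal_ofReal (by positivity), Complex.real_smul, ← mul_assoc, Complex.conj_mul']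
  push_cast
  ring

theorem sm_U (W : UG X) (s : ℝ) (u : X) : sm W (W.U s u) = sm W u := by
  refine sm_ext_iff fun t => ?_
  rw [← W.add', add_comm t s, W.add', inner_pres]

theorem sm_par (W : UG X) (u v : X) :
    sm W (u + v) + sm W (u - v) = 2 • sm W u + 2 • sm W v := by
  apply exp_ext
  intro t
  have hi : ∀ w : X, Integrable (fun E : ℝ => Complex.exp (-(Complex.I * t * E))) (sm W w) :=
    fun w => exp_int _ t
  rw [integral_add_measure (hi _) (hi _), two_nsmul, two_nsmul,
    integral_add_measure ((hi _).add_measure (hi _)) ((hi _).add_measure (hi _)),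
    integral_add_measure (hi _) (hi _), integral_add_measure (hi _) (hi _)]
  rw [← sm_inner, ← sm_inner, ← sm_inner, ← sm_inner]
  simp only [map_add, map_sub, inner_add_left, inner_add_right, inner_sub_left, inner_sub_right]
  ring

theorem sm_add_le (W : UG X) (u v : X) (B : Set ℝ) :
    sm W (u + v) B ≤ 2 * sm W u B + 2 * sm W v B := by
  have h := congrArg (fun m : Measure ℝ => m B) (sm_par W u v)
  simp only [two_nsmul, Measure.coe_add, Pi.add_apply] at h
  rw [two_mul, two_mul, ← h]
  exact le_self_add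

theorem sm_add_orth (W : UG X) {u v : X} (h : ∀ t, ⟪u, W.U t v⟫_ℂ = 0) :
    sm W (u + v) = sm W u + sm W v := by
  refine sm_eq ⟨inferInstance, fun t => ?_⟩
  rw [integral_add_measure (exp_int _ t) (exp_int _ t), ← sm_inner, ← sm_inner]
  have h2 : ⟪v, W.U t u⟫_ℂ = 0 := by
    rw [← inner_conj_symm, inner_adj, h, map_zero]
  simp only [map_add, inner_add_left, inner_add_right, h t, h2]
  ring

theorem sm_neg (W : UG X) (u : X) : sm W (-u) = sm W u :=
  sm_ext_iff fun t => by rw [map_neg, inner_neg_neg]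

/-- the vectors whose spectral measure does not charge `B` -/
noncomputable def nul (W : UG X) (B : Set ℝ) : Submodule ℂ X where
  carrier := {u | sm W u B = 0}
  add_mem' := by
    intro u v hu hv
    have h := sm_add_le W u v B
    simp only [Set.mem_ofPred_eq] at hu hv ⊢
    rw [hu, hv, mul_zero, add_zero] at h
    exact le_antisymm h bot_le
  zero_mem' := by simp [sm_zero]
  smul_mem' := by
    intro c u hu
    simp only [Set.mem_ofPred_eq] at hu ⊢
    rw [sm_smul, Measure.smul_apply, hu, smul_zero]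

theorem mem_nul {W : UG X} {B : Set ℝ} {u : X} : u ∈ nul W B ↔ sm W u B = 0 := Iff.rfl

theorem nul_closed (W : UG X) (B : Set ℝ) : IsClosed (nul W B : Set X) := by
  rw [← isSeqClosed_iff_isClosed]
  intro x u hx hu
  have h1 : ∀ n, sm W u B ≤ 2 * ENNReal.ofReal (‖u - x n‖ ^ 2) := by
    intro n
    have h := sm_add_le W (u - x n) (x n) B
    rw [sub_add_cancel, mem_nul.1 (hx n), mul_zero, add_zero] at h
    refine h.trans ?_
    gcongr
    rw [← sm_univ W]
    exact measure_mono (Set.subset_univ _)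
  have h2 : Tendsto (fun n => 2 * ENNReal.ofReal (‖u - x n‖ ^ 2)) atTop (𝓝 0) := by
    have h3 : Tendsto (fun n => ‖u - x n‖ ^ 2) atTop (𝓝 0) := by
      have h4 : Tendsto (fun n => ‖u - x n‖) atTop (𝓝 0) := by
        have := (tendsto_const_nhds (x := u)).sub hu
        rw [sub_self] at this
        simpa using this.norm
      simpa using h4.pow 2
    have h5 := ENNReal.Tendsto.const_mul (ENNReal.tendsto_ofReal h3) (a := 2)
      (Or.inr (by norm_num))
    simpa using h5
  exact mem_nul.2 (le_antisymm (ge_of_tendsto' h2 h1) bot_le)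

theorem nul_U {W : UG X} {B : Set ℝ} {u : X} (hu : u ∈ nul W B) (t : ℝ) : W.U t u ∈ nul W B := by
  rw [mem_nul, sm_U]
  exact hu

/-- the cyclic subspace -/
noncomputable def cyc (W : UG X) (u : X) : Submodule ℂ X :=
  (Submodule.span ℂ (Set.range fun t => W.U t u)).topologicalClosure

theorem cyc_closed (W : UG X) (u : X) : IsClosed (cyc W u : Set X) :=
  Submodule.isClosed_topologicalClosure _

theorem U_mem_cyc (W : UG X) (u : X) (t : ℝ) : W.U t u ∈ cyc W u :=
  Submodule.le_topologicalClosure _ (Submodule.subset_span ⟨t, rfl⟩)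

theorem self_mem_cyc (W : UG X) (u : X) : u ∈ cyc W u := by
  have := U_mem_cyc W u 0
  rwa [W.zero'] at this

theorem cyc_le {W : UG X} {u : X} {M : Submodule ℂ X} (hM : IsClosed (M : Set X))
    (h : ∀ t, W.U t u ∈ M) : cyc W u ≤ M := by
  refine Submodule.topologicalClosure_minimal _ ?_ hM
  rw [Submodule.span_le]
  rintro _ ⟨t, rfl⟩
  exact h t

theorem cyc_U {W : UG X} {u v : X} (hv : v ∈ cyc W u) (t : ℝ) : W.U t v ∈ cyc W u := by
  have h : cyc W u ≤ (cyc W u).comap (W.U t).toLinearMap := by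
    refine cyc_le ?_ fun s => ?_
    · exact (cyc_closed W u).preimage (W.U t).continuous
    · change W.U t (W.U s u) ∈ cyc W u
      rw [← W.add']
      exact U_mem_cyc W u _
  exact h hv

theorem nul_of_cyc {W : UG X} {B : Set ℝ} {u v : X} (hu : u ∈ nul W B) (hv : v ∈ cyc W u) :
    v ∈ nul W B := cyc_le (nul_closed W B) (nul_U hu) hv

/-- orthogonality to an orbit passes to the cyclic subspace -/
theorem orth_cyc {W : UG X} {u φ : X} (h : ∀ t, ⟪φ, W.U t u⟫_ℂ = 0) {v : X} (hv : v ∈ cyc W u) :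
    ⟪φ, v⟫_ℂ = 0 := by
  have h1 : cyc W u ≤ (ℂ ∙ φ)ᗮ := by
    refine cyc_le (Submodule.isClosed_orthogonal _) fun t => ?_
    rw [Submodule.mem_orthogonal_singleton_iff_inner_right]
    exact h t
  exact (Submodule.mem_orthogonal_singleton_iff_inner_right).1 (h1 hv)

/-- both cyclic subspaces are orthogonal -/
theorem orth_cyc₂ {W : UG X} {u φ : X} (h : ∀ t, ⟪φ, W.U t u⟫_ℂ = 0) {v w : X}
    (hw : w ∈ cyc W φ) (hv : v ∈ cyc W u) : ⟪w, v⟫_ℂ = 0 := by
  have h1 : ∀ t, ⟪v, W.U t φ⟫_ℂ = 0 := by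
    intro t
    rw [← inner_conj_symm, inner_adj, orth_cyc h (cyc_U hv (-t)), map_zero]
  rw [← inner_conj_symm, orth_cyc h1 hw, map_zero]

instance cyc_complete (W : UG X) (u : X) : CompleteSpace (cyc W u) :=
  (cyc_closed W u).completeSpace_coe

/-- projection on the cyclic subspace -/
theorem exists_proj (W : UG X) (u φ : X) : ∃ p ∈ cyc W u, ∀ v ∈ cyc W u, ⟪φ - p, v⟫_ℂ = 0 := by
  refine ⟨(cyc W u).starProjection φ, Submodule.starProjection_apply_mem _ _, fun v hv => ?_⟩
  exact Submodule.starProjection_inner_eq_zero φ v hv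

/-- **orthogonality of vectors with disjoint carriers** -/
theorem orth_of_nul {W : UG X} {φ ψ : X} {B : Set ℝ} (h1 : φ ∈ nul W B) (h2 : ψ ∈ nul W Bᶜ) :
    ⟪φ, ψ⟫_ℂ = 0 := by
  obtain ⟨p, hp, hpo⟩ := exists_proj W ψ φ
  have h3 : p ∈ nul W Bᶜ := nul_of_cyc h2 hp
  have h4 : sm W φ = sm W (φ - p) + sm W p := by
    rw [← sm_add_orth W (fun t => hpo _ (cyc_U hp t)), sub_add_cancel]
  have h5 : sm W p B = 0 := by
    have h6 := congrArg (fun m : Measure ℝ => m B) h4
    simp only [Measure.coe_add, Pi.add_apply] at h6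
    rw [mem_nul.1 h1] at h6
    exact (add_eq_zero.1 h6.symm).2
  have h6 : p = 0 := by
    refine eq_zero_of_sm (W := W) (le_antisymm ?_ bot_le)
    calc sm W p Set.univ = sm W p (B ∪ Bᶜ) := by rw [Set.union_compl_self]
      _ ≤ sm W p B + sm W p Bᶜ := measure_union_le _ _
      _ = 0 := by rw [h5, mem_nul.1 h3, add_zero]
  have h7 := hpo ψ (self_mem_cyc W ψ)
  rw [h6, sub_zero] at h7
  exact h7

end Pool.Agent.K7.H83.SI
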