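import Pool.Agent.K7.H83.SI.Sp2

/-! # Spectral projections for one-parameter unitary groups -/

set_option autoImplicit false

open MeasureTheory Filter Topology
open scoped BigOperators ENNReal NNReal InnerProductSpace ComplexConjugate

namespace Pool.Agent.K7.H83.SI

open Pool.Agent.H5R2.NB ANTI

/-- the character -/
noncomputable def ex (t E : ℝ) : ℂ := Complex.exp (-(Complex.I * t * E))

theorem norm_ex (t E : ℝ) : ‖ex t E‖ = 1 := norm_exp_IE t E

theorem ex_cont (t : ℝ) : Continuous (ex t) := by unfold ex; fun_prop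

theorem conj_ex (t E : ℝ) : conj (ex t E) = ex (-t) E := by
  unfold ex
  rw [← Complex.exp_conj]
  congr 1
  simp

theorem ex_add (s t E : ℝ) : ex (s + t) E = ex s E * ex t E := by
  unfold ex
  rw [← Complex.exp_add]
  congr 1
  push_cast
  ring

/-- uniqueness of the Fourier transform, real densities -/
theorem fourier_real {m : Measure ℝ} [IsFiniteMeasure m] {g : ℝ → ℝ} (hg : Integrable g m)
    (h : ∀ t, ∫ E, ex t E * (g E : ℂ) ∂m = 0) : g =ᵐ[m] 0 := by
  have hp : AEMeasurable (fun E => ENNReal.ofReal (g E)) m := hg.aemeasurable.ennreal_ofReal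
  have hn : AEMeasurable (fun E => ENNReal.ofReal (-g E)) m := hg.aemeasurable.neg.ennreal_ofReal
  have hpf : ∫⁻ E, ENNReal.ofReal (g E) ∂m ≠ ∞ := hg.lintegral_lt_top.ne
  have hnf : ∫⁻ E, ENNReal.ofReal (-g E) ∂m ≠ ∞ := hg.neg.lintegral_lt_top.ne
  have f1 : IsFiniteMeasure (m.withDensity fun E => ENNReal.ofReal (g E)) :=
    isFiniteMeasure_withDensity hpf
  have f2 : IsFiniteMeasure (m.withDensity fun E => ENNReal.ofReal (-g E)) :=
    isFiniteMeasure_withDensity hnf
  have key : (m.withDensity fun E => ENNReal.ofReal (g E)) =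
      m.withDensity fun E => ENNReal.ofReal (-g E) := by
    apply exp_ext
    intro t
    rw [integral_withDensity_eq_integral_toReal_smul₀ hp
        (Eventually.of_forall fun _ => ENNReal.ofReal_lt_top),
      integral_withDensity_eq_integral_toReal_smul₀ hn
        (Eventually.of_forall fun _ => ENNReal.ofReal_lt_top), ← sub_eq_zero, ← integral_sub]
    · rw [← h t]
      refine integral_congr_ae (Eventually.of_forall fun E => ?_)
      simp only [ENNReal.toReal_ofReal']
      rw [← sub_smul, Complex.real_smul, mul_comm]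
      unfold ex
      congr 2
      rcases le_total 0 (g E) with h0 | h0
      · rw [max_eq_left h0, max_eq_right (by linarith)]; ring
      · rw [max_eq_right h0, max_eq_left (by linarith)]; ring
    · refine (hg.norm.mono' ?_ (Eventually.of_forall fun E => ?_))
      · exact (hp.ennreal_toReal.aestronglyMeasurable.smul
          (by fun_prop : Measurable fun E : ℝ => Complex.exp (-(Complex.I * t * E))).aestronglyMeasurable)
      · rw [norm_smul, norm_exp_IE, mul_one, ENNReal.toReal_ofReal', Real.norm_eq_abs,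
          abs_of_nonneg (le_max_right _ _), Real.norm_eq_abs]
        exact max_le (le_abs_self _) (abs_nonneg _)
    · refine (hg.norm.mono' ?_ (Eventually.of_forall fun E => ?_))
      · exact (hn.ennreal_toReal.aestronglyMeasurable.smul
          (by fun_prop : Measurable fun E : ℝ => Complex.exp (-(Complex.I * t * E))).aestronglyMeasurable)
      · rw [norm_smul, norm_exp_IE, mul_one, ENNReal.toReal_ofReal', Real.norm_eq_abs,
          abs_of_nonneg (le_max_right _ _), Real.norm_eq_abs]
        exact max_le (neg_le_abs _) (abs_nonneg _)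
  rw [withDensity_eq_iff hp hn hpf] at key
  filter_upwards [key] with E hE
  simp only [Pi.zero_apply]
  rcases le_total 0 (g E) with h0 | h0
  · rw [ENNReal.ofReal_of_nonpos (p := -g E) (by linarith), ENNReal.ofReal_eq_zero] at hE
    linarith
  · rw [ENNReal.ofReal_of_nonpos (p := g E) h0, eq_comm, ENNReal.ofReal_eq_zero] at hE
    linarith

theorem ex_mul_int {m : Measure ℝ} {f : ℝ → ℂ} (hf : Integrable f m) (t : ℝ) :
    Integrable (fun E => ex t E * f E) m := by
  refine hf.norm.mono' ((ex_cont t).aestronglyMeasurable.mul hf.1) (Eventually.of_forall fun E => ?_)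
  rw [norm_mul, norm_ex, one_mul]

/-- uniqueness of the Fourier transform, complex densities -/
theorem fourier_complex {m : Measure ℝ} [IsFiniteMeasure m] {f : ℝ → ℂ} (hf : Integrable f m)
    (h : ∀ t, ∫ E, ex t E * f E ∂m = 0) : f =ᵐ[m] 0 := by
  have hc : ∀ t, ∫ E, ex t E * conj (f E) ∂m = 0 := by
    intro t
    have h1 := congrArg conj (h (-t))
    rw [← integral_conj, map_zero] at h1
    rw [← h1]
    refine integral_congr_ae (Eventually.of_forall fun E => ?_)
    simp only [map_mul, conj_ex, neg_neg]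
  have hfc : Integrable (fun E => conj (f E)) m := by
    refine hf.norm.mono' (Complex.continuous_conj.comp_aestronglyMeasurable hf.1)
      (Eventually.of_forall fun E => ?_)
    rw [RCLike.norm_conj]
  have hre : (fun E => (f E).re) =ᵐ[m] 0 := by
    refine fourier_real hf.re fun t => ?_
    have h1 : ∫ E, (ex t E * f E + ex t E * conj (f E)) ∂m = 0 := by
      rw [integral_add (ex_mul_int hf t) (ex_mul_int hfc t), h t, hc t, add_zero]
    have h2 : ∀ E, ex t E * f E + ex t E * conj (f E) = 2 * (ex t E * ((f E).re : ℂ)) := by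
      intro E
      rw [← mul_add, Complex.add_conj]
      push_cast
      ring
    simp_rw [h2] at h1
    rw [integral_const_mul] at h1
    exact (mul_eq_zero.1 h1).resolve_left two_ne_zero
  have him : (fun E => (f E).im) =ᵐ[m] 0 := by
    refine fourier_real hf.im fun t => ?_
    have h1 : ∫ E, (ex t E * f E - ex t E * conj (f E)) ∂m = 0 := by
      rw [integral_sub (ex_mul_int hf t) (ex_mul_int hfc t), h t, hc t, sub_zero]
    have h2 : ∀ E, ex t E * f E - ex t E * conj (f E) =
        (2 * Complex.I) * (ex t E * ((f E).im : ℂ)) := by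
      intro E
      rw [← mul_sub, Complex.sub_conj]
      push_cast
      ring
    simp_rw [h2] at h1
    rw [integral_const_mul] at h1
    exact (mul_eq_zero.1 h1).resolve_left (mul_ne_zero two_ne_zero Complex.I_ne_zero)
  filter_upwards [hre, him] with E h1 h2
  exact Complex.ext h1 h2

section Lp

variable (m : Measure ℝ) [IsFiniteMeasure m]

theorem ex_memLp (t : ℝ) : MemLp (ex t) 2 m :=
  MemLp.of_bound (ex_cont t).aestronglyMeasurable 1
    (Eventually.of_forall fun E => (norm_ex t E).le)

/-- characters in `L²` -/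
noncomputable def eLp (t : ℝ) : Lp ℂ 2 m := (ex_memLp m t).toLp

theorem eLp_coe (t : ℝ) : eLp m t =ᵐ[m] ex t := MemLp.coeFn_toLp _

theorem inner_eLp (t : ℝ) (f : Lp ℂ 2 m) : ⟪eLp m t, f⟫_ℂ = ∫ E, ex (-t) E * f E ∂m := by
  rw [L2.inner_def]
  refine integral_congr_ae ?_
  filter_upwards [eLp_coe m t] with E hE
  rw [RCLike.inner_apply', hE, conj_ex]

theorem span_eLp : (Submodule.span ℂ (Set.range (eLp m))).topologicalClosure = ⊤ := by
  rw [Submodule.topologicalClosure_eq_top_iff, Submodule.eq_bot_iff]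
  intro f hf
  rw [Submodule.mem_orthogonal] at hf
  have h1 : f =ᵐ[m] 0 := by
    refine fourier_complex ((Lp.memLp f).integrable one_le_two) fun t => ?_
    have h2 := hf (eLp m (-t)) (Submodule.subset_span ⟨-t, rfl⟩)
    rwa [inner_eLp, neg_neg] at h2
  exact (Lp.eq_zero_iff_ae_eq_zero).2 h1

theorem mul_memLp (t : ℝ) (f : Lp ℂ 2 m) : MemLp (fun E => ex t E * f E) 2 m := by
  refine (Lp.memLp f).of_le ((ex_cont t).aestronglyMeasurable.mul (Lp.memLp f).1)
    (Eventually.of_forall fun E => ?_)
  rw [norm_mul, norm_ex, one_mul]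

/-- multiplication by a character -/
noncomputable def Mt (t : ℝ) : Lp ℂ 2 m →ₗ[ℂ] Lp ℂ 2 m where
  toFun f := (mul_memLp m t f).toLp
  map_add' f g := by
    ext1
    filter_upwards [MemLp.coeFn_toLp (mul_memLp m t (f + g)), Lp.coeFn_add f g,
      Lp.coeFn_add (mul_memLp m t f).toLp (mul_memLp m t g).toLp,
      MemLp.coeFn_toLp (mul_memLp m t f), MemLp.coeFn_toLp (mul_memLp m t g)] with E h1 h2 h3 h4 h5
    rw [h1, h2, h3, Pi.add_apply, Pi.add_apply, h4, h5, mul_add]
  map_smul' c f := by
    ext1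
    filter_upwards [MemLp.coeFn_toLp (mul_memLp m t (c • f)), Lp.coeFn_smul c f,
      Lp.coeFn_smul c (mul_memLp m t f).toLp,
      MemLp.coeFn_toLp (mul_memLp m t f)] with E h1 h2 h3 h4
    rw [h1, h2, RingHom.id_apply, h3, Pi.smul_apply, Pi.smul_apply, h4, smul_eq_mul, smul_eq_mul]
    ring

theorem Mt_coe (t : ℝ) (f : Lp ℂ 2 m) : Mt m t f =ᵐ[m] fun E => ex t E * f E :=
  MemLp.coeFn_toLp (mul_memLp m t f)

theorem norm_Mt (t : ℝ) (f : Lp ℂ 2 m) : ‖Mt m t f‖ ≤ ‖f‖ := by
  refine Lp.norm_le_norm_of_ae_le ?_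
  filter_upwards [Mt_coe m t f] with E hE
  rw [hE, norm_mul, norm_ex, one_mul]

theorem Mt_cont (t : ℝ) : Continuous (Mt m t) := by
  have : LipschitzWith 1 (Mt m t) := by
    refine LipschitzWith.of_dist_le_mul fun f g => ?_
    rw [dist_eq_norm, dist_eq_norm, ← map_sub, NNReal.coe_one, one_mul]
    exact norm_Mt m t _
  exact this.continuous

theorem Mt_eLp (s t : ℝ) : Mt m t (eLp m s) = eLp m (s + t) := by
  ext1
  filter_upwards [Mt_coe m t (eLp m s), eLp_coe m s, eLp_coe m (s + t)] with E h1 h2 h3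
  rw [h1, h2, h3, ex_add, mul_comm]

end Lp

variable {X : Type} [NormedAddCommGroup X] [InnerProductSpace ℂ X] [CompleteSpace X]

/-- trigonometric polynomials in `L²` -/
noncomputable def SS (W : UG X) (u : X) : (ℝ →₀ ℂ) →ₗ[ℂ] Lp ℂ 2 (sm W u) :=
  Finsupp.linearCombination ℂ (eLp (sm W u))

/-- the corresponding vectors -/
noncomputable def TT' (W : UG X) (u : X) : (ℝ →₀ ℂ) →ₗ[ℂ] X :=
  Finsupp.linearCombination ℂ (fun t => W.U t u)

theorem inner_SS (W : UG X) (u : X) (a b : ℝ →₀ ℂ) :
    ⟪SS W u a, SS W u b⟫_ℂ = ⟪TT' W u a, TT' W u b⟫_ℂ := by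
  unfold SS TT'
  rw [Finsupp.linearCombination_apply, Finsupp.linearCombination_apply,
    Finsupp.linearCombination_apply, Finsupp.linearCombination_apply, Finsupp.sum_inner,
    Finsupp.sum_inner]
  refine Finsupp.sum_congr fun s _ => ?_
  rw [Finsupp.inner_sum, Finsupp.inner_sum]
  refine Finsupp.sum_congr fun t _ => ?_
  rw [inner_smul_left, inner_smul_right, inner_smul_left, inner_smul_right]
  congr 2
  rw [inner_eLp, inner_adj, ← W.add', sm_inner]
  refine integral_congr_ae ?_
  filter_upwards [eLp_coe (sm W u) t] with E hE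
  rw [hE, ← ex_add]
  rfl

theorem norm_SS (W : UG X) (u : X) (a : ℝ →₀ ℂ) : ‖SS W u a‖ = ‖TT' W u a‖ := by
  have h := inner_SS W u a a
  rw [inner_self_eq_norm_sq_to_K, inner_self_eq_norm_sq_to_K] at h
  have h2 : ‖SS W u a‖ ^ 2 = ‖TT' W u a‖ ^ 2 := by exact_mod_cast h
  exact (sq_eq_sq₀ (norm_nonneg _) (norm_nonneg _)).1 h2

theorem TT_mem (W : UG X) (u : X) (a : ℝ →₀ ℂ) : TT' W u a ∈ cyc W u := by
  unfold TT'
  rw [Finsupp.linearCombination_apply]
  exact Submodule.sum_mem _ fun t _ => Submodule.smul_mem _ _ (U_mem_cyc W u t)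

theorem SS_shift (W : UG X) (u : X) (t : ℝ) (a : ℝ →₀ ℂ) :
    SS W u (a.mapDomain (· + t)) = Mt (sm W u) t (SS W u a) := by
  unfold SS
  rw [Finsupp.linearCombination_mapDomain]
  induction a using Finsupp.induction_linear with
  | zero => simp
  | add f g hf hg => rw [map_add, map_add, map_add, hf, hg]
  | single s c =>
    rw [Finsupp.linearCombination_single, Finsupp.linearCombination_single, map_smul, Mt_eLp]
    rfl

theorem TT_shift (W : UG X) (u : X) (t : ℝ) (a : ℝ →₀ ℂ) :
    TT' W u (a.mapDomain (· + t)) = W.U t (TT' W u a) := by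
  unfold TT'
  rw [Finsupp.linearCombination_mapDomain]
  induction a using Finsupp.induction_linear with
  | zero => simp
  | add f g hf hg => rw [map_add, map_add, map_add, hf, hg]
  | single s c =>
    rw [Finsupp.linearCombination_single, Finsupp.linearCombination_single, map_smul,
      Function.comp_apply, add_comm s t, W.add']

/-- the spectral measure of a limit -/
theorem sp_limit (W : UG X) (u : X) {a : ℕ → (ℝ →₀ ℂ)} {f : Lp ℂ 2 (sm W u)} {w : X}
    (h1 : Tendsto (fun n => SS W u (a n)) atTop (𝓝 f))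
    (h2 : Tendsto (fun n => TT' W u (a n)) atTop (𝓝 w)) {B : Set ℝ} (hB : MeasurableSet B)
    (hf : f =ᵐ[sm W u] B.indicator fun _ => (1 : ℂ)) : sm W w = (sm W u).restrict B := by
  refine sm_eq ⟨inferInstance, fun t => ?_⟩
  have h3 : Tendsto (fun n => ⟪TT' W u (a n), W.U t (TT' W u (a n))⟫_ℂ) atTop
      (𝓝 (⟪w, W.U t w⟫_ℂ)) := h2.inner (((W.U t).continuous.tendsto w).comp h2)
  have h4 : Tendsto (fun n => ⟪SS W u (a n), Mt (sm W u) t (SS W u (a n))⟫_ℂ) atTop
      (𝓝 (⟪f, Mt (sm W u) t f⟫_ℂ)) := h1.inner (((Mt_cont (sm W u) t).tendsto f).comp h1)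
  have h5 : ⟪w, W.U t w⟫_ℂ = ⟪f, Mt (sm W u) t f⟫_ℂ := by
    refine tendsto_nhds_unique h3 (h4.congr fun n => ?_)
    rw [← SS_shift, inner_SS, TT_shift]
  rw [h5, L2.inner_def, ← integral_indicator hB]
  refine integral_congr_ae ?_
  filter_upwards [Mt_coe (sm W u) t f, hf] with E e1 e2
  rw [RCLike.inner_apply', e1, e2]
  by_cases hE : E ∈ B
  · rw [Set.indicator_of_mem hE, Set.indicator_of_mem hE]
    simp [ex]
  · rw [Set.indicator_of_notMem hE, Set.indicator_of_notMem hE]
    simp

/-- **spectral projections** -/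
theorem exists_split (W : UG X) (u : X) {B : Set ℝ} (hB : MeasurableSet B) :
    ∃ w ∈ cyc W u, sm W w = (sm W u).restrict B ∧ sm W (u - w) = (sm W u).restrict Bᶜ := by
  set f : Lp ℂ 2 (sm W u) := indicatorConstLp 2 hB (measure_ne_top _ _) (1 : ℂ) with hf
  have hfc : f =ᵐ[sm W u] B.indicator fun _ => (1 : ℂ) := indicatorConstLp_coeFn
  have hmem : f ∈ closure (Set.range (SS W u)) := by
    have h1 : (LinearMap.range (SS W u)).topologicalClosure = ⊤ := by
      unfold SS
      rw [Finsupp.range_linearCombination]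
      exact span_eLp _
    have h2 : f ∈ (LinearMap.range (SS W u)).topologicalClosure := by
      rw [h1]; exact Submodule.mem_top
    exact h2
  obtain ⟨y, hy, hyf⟩ := mem_closure_iff_seq_limit.1 hmem
  choose a ha using hy
  have h1 : Tendsto (fun n => SS W u (a n)) atTop (𝓝 f) := by
    simpa only [ha] using hyf
  have hcs : CauchySeq fun n => TT' W u (a n) := by
    have h2 := h1.cauchySeq
    rw [Metric.cauchySeq_iff] at h2 ⊢
    intro ε hε
    obtain ⟨N, hN⟩ := h2 ε hε
    refine ⟨N, fun p hp q hq => ?_⟩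
    have h3 := hN p hp q hq
    rw [dist_eq_norm, ← map_sub, norm_SS, map_sub] at h3
    rw [dist_eq_norm]
    exact h3
  obtain ⟨w, hw⟩ := cauchySeq_tendsto_of_complete hcs
  refine ⟨w, (cyc_closed W u).mem_of_tendsto hw (Eventually.of_forall fun n => TT_mem W u _),
    sp_limit W u h1 hw hB hfc, ?_⟩
  have e1 : SS W u (Finsupp.single 0 1) = eLp (sm W u) 0 := by
    unfold SS
    rw [Finsupp.linearCombination_single, one_smul]
  have e2 : TT' W u (Finsupp.single 0 1) = u := by
    unfold TT'
    rw [Finsupp.linearCombination_single, one_smul, W.zero']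
  have h3 : Tendsto (fun n => SS W u (Finsupp.single 0 1 - a n)) atTop
      (𝓝 (eLp (sm W u) 0 - f)) := by
    simp only [map_sub, e1]
    exact tendsto_const_nhds.sub h1
  have h4 : Tendsto (fun n => TT' W u (Finsupp.single 0 1 - a n)) atTop (𝓝 (u - w)) := by
    simp only [map_sub, e2]
    exact tendsto_const_nhds.sub hw
  refine sp_limit W u h3 h4 hB.compl ?_
  filter_upwards [Lp.coeFn_sub (eLp (sm W u) 0) f, eLp_coe (sm W u) 0, hfc] with E e3 e4 e5
  rw [e3, Pi.sub_apply, e4, e5]
  by_cases hE : E ∈ B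
  · rw [Set.indicator_of_mem hE, Set.indicator_of_notMem (by simpa using hE)]
    simp [ex]
  · rw [Set.indicator_of_notMem hE, Set.indicator_of_mem (by simpa using hE)]
    simp [ex]

end Pool.Agent.K7.H83.SI
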